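import Pool.Agent.W253.RO.MainB

/-!
# Fields supported in the positive cone of a left-ordered group
-/

set_option autoImplicit false
set_option linter.unusedSectionVars false
open scoped ComplexConjugate InnerProductSpace Topology BoundedContinuousFunction
open Filter MeasureTheory

namespace Pool.Agent.TH315.LO
open Pool.Agent.H712R5.BO Pool.Agent.W611.RO

section
variable {G H : Type} [NormedAddCommGroup H] [InnerProductSpace ℂ H] [CompleteSpace H]

/-- vectors supported in `S` -/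
def Kg (b : HilbertBasis G ℂ H) (S : Set G) : Submodule ℂ H where
  carrier := {x | ∀ g, g ∉ S → ⟪b g, x⟫_ℂ = 0}
  add_mem' := by
    intro x y hx hy g hg
    rw [inner_add_right, hx g hg, hy g hg, add_zero]
  zero_mem' := by
    intro g _
    rw [inner_zero_right]
  smul_mem' := by
    intro c x hx g hg
    rw [inner_smul_right, hx g hg, mul_zero]

theorem mem_Kg (b : HilbertBasis G ℂ H) (S : Set G) (x : H) :
    x ∈ Kg b S ↔ ∀ g, g ∉ S → ⟪b g, x⟫_ℂ = 0 := Iff.rfl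

theorem isClosed_Kg (b : HilbertBasis G ℂ H) (S : Set G) : IsClosed (Kg b S : Set H) := by
  have h : (Kg b S : Set H) = ⋂ (g : G) (_ : g ∉ S), {x | ⟪b g, x⟫_ℂ = 0} := by
    ext x
    simp only [SetLike.mem_coe, mem_Kg, Set.mem_iInter]
    rfl
  rw [h]
  refine isClosed_iInter fun g => isClosed_iInter fun _ => ?_
  exact isClosed_eq (continuous_const.inner continuous_id) continuous_const

theorem b_mem_Kg (b : HilbertBasis G ℂ H) {S : Set G} {g : G} (hg : g ∈ S) : b g ∈ Kg b S := by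
  classical
  intro h hh
  rw [orthonormal_iff_ite.1 b.orthonormal h g, if_neg]
  rintro rfl
  exact hh hg

theorem inner_tsum (b : HilbertBasis G ℂ H) (X : H →L[ℂ] H) (h : G) (v : H) :
    ⟪b h, X v⟫_ℂ = ∑' g, ⟪b h, X (b g)⟫_ℂ * ⟪b g, v⟫_ℂ := by
  have h2 : ∀ w : H, ⟪b h, X w⟫_ℂ = ⟪star X (b h), w⟫_ℂ := by
    intro w
    rw [ContinuousLinearMap.star_eq_adjoint, ContinuousLinearMap.adjoint_inner_left]
  rw [h2, ← b.tsum_inner_mul_inner]
  refine tsum_congr fun g => ?_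
  rw [h2]

end

section
variable {G Ω H : Type} [Group G] [Countable G] [MeasurableSpace Ω] [MulAction G Ω]
  [NormedAddCommGroup H] [InnerProductSpace ℂ H] [CompleteSpace H]

omit [Countable G] in
theorem L_star (b : HilbertBasis G ℂ H) (L : G → unitary (H →L[ℂ] H)) (hL : Reg b L) (p g : G) :
    star (L p : H →L[ℂ] H) (b g) = b (p⁻¹ * g) := by
  have e2 : star (L p : H →L[ℂ] H) * (L p : H →L[ℂ] H) = 1 := (Unitary.mem_iff.mp (L p).2).1
  have h1 : b g = (L p : H →L[ℂ] H) (b (p⁻¹ * g)) := by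
    rw [hL, mul_inv_cancel_left]
  rw [h1]
  have h2 := congrArg (fun T : H →L[ℂ] H => T (b (p⁻¹ * g))) e2
  exact h2

omit [Countable G] in
theorem inner_L (b : HilbertBasis G ℂ H) (L : G → unitary (H →L[ℂ] H)) (hL : Reg b L) (p g : G)
    (x : H) : ⟪b g, (L p : H →L[ℂ] H) x⟫_ℂ = ⟪b (p⁻¹ * g), x⟫_ℂ := by
  rw [← L_star b L hL p g, ContinuousLinearMap.star_eq_adjoint,
    ContinuousLinearMap.adjoint_inner_left]

theorem ev_L (b : HilbertBasis G ℂ H) (L : G → unitary (H →L[ℂ] H)) (x : CF (Ω := Ω) b L) (g : G)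
    (ω : Ω) (v : H) : ev b L ω x ((L g : H →L[ℂ] H) v)
      = (L g : H →L[ℂ] H) (ev b L (g⁻¹ • ω) x v) := by
  have h1 := ev_cov b L x g (g⁻¹ • ω)
  rw [smul_inv_smul] at h1
  exact congrArg (fun T : H →L[ℂ] H => T v) h1

theorem ev_b (b : HilbertBasis G ℂ H) (L : G → unitary (H →L[ℂ] H)) (hL : Reg b L)
    (x : CF (Ω := Ω) b L) (g : G) (ω : Ω) :
    ev b L ω x (b g) = (L g : H →L[ℂ] H) (ev b L (g⁻¹ • ω) x (b 1)) := by
  rw [← ev_L, hL, mul_one]

theorem inner_ev_b (b : HilbertBasis G ℂ H) (L : G → unitary (H →L[ℂ] H)) (hL : Reg b L)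
    (x : CF (Ω := Ω) b L) (g h : G) (ω : Ω) :
    ⟪b h, ev b L ω x (b g)⟫_ℂ = ⟪b (g⁻¹ * h), ev b L (g⁻¹ • ω) x (b 1)⟫_ℂ := by
  rw [ev_b b L hL, inner_L b L hL]

/-- the diagonal coefficient -/
noncomputable def Ph (b : HilbertBasis G ℂ H) (L : G → unitary (H →L[ℂ] H))
    (x : CF (Ω := Ω) b L) (ω : Ω) : ℂ := ⟪b 1, ev b L ω x (b 1)⟫_ℂ

theorem Ph_meas (b : HilbertBasis G ℂ H) (L : G → unitary (H →L[ℂ] H)) (x : CF (Ω := Ω) b L) :
    Measurable (Ph b L x) := ev_meas b L x _ _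

theorem Ph_le (b : HilbertBasis G ℂ H) (L : G → unitary (H →L[ℂ] H)) (x : CF (Ω := Ω) b L)
    (ω : Ω) : ‖Ph b L x ω‖ ≤ ‖x‖ := by
  have h1 := ev_inner_le b L x (b 1) (b 1) ω
  rwa [b.orthonormal.1 1, one_mul, one_mul] at h1

theorem Ph_int (P : Measure Ω) [IsProbabilityMeasure P] (b : HilbertBasis G ℂ H)
    (L : G → unitary (H →L[ℂ] H)) (x : CF (Ω := Ω) b L) : Integrable (Ph b L x) P :=
  ev_int P b L x _ _

theorem tau_Ph (P : Measure Ω) [IsProbabilityMeasure P] (b : HilbertBasis G ℂ H)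
    (L : G → unitary (H →L[ℂ] H)) (x : CF (Ω := Ω) b L) :
    tau P b L x = ∫ ω, Ph b L x ω ∂P := rfl

variable [LinearOrder G]

/-- fields supported in the cone `{g | 1 ≤ g}` -/
def NN (b : HilbertBasis G ℂ H) (L : G → unitary (H →L[ℂ] H)) (x : CF (Ω := Ω) b L) : Prop :=
  ∀ ω : Ω, ev b L ω x (b 1) ∈ Kg b (Set.Ici (1 : G))

variable [MulLeftStrictMono G]

theorem NN_coef (b : HilbertBasis G ℂ H) (L : G → unitary (H →L[ℂ] H)) (hL : Reg b L)
    {x : CF (Ω := Ω) b L} (hx : NN b L x) (ω : Ω) {g h : G} (hgh : h < g) :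
    ⟪b h, ev b L ω x (b g)⟫_ℂ = 0 := by
  rw [inner_ev_b b L hL]
  refine hx (g⁻¹ • ω) _ ?_
  rw [Set.mem_Ici, not_le]
  have := mul_lt_mul_right hgh g⁻¹
  simpa using this

/-- a field supported in the cone preserves the vectors supported in the cone -/
theorem NN_map (b : HilbertBasis G ℂ H) (L : G → unitary (H →L[ℂ] H)) (hL : Reg b L)
    {x : CF (Ω := Ω) b L} (hx : NN b L x) (ω : Ω) {v : H} (hv : v ∈ Kg b (Set.Ici (1 : G))) :
    ev b L ω x v ∈ Kg b (Set.Ici (1 : G)) ∧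
      ⟪b 1, ev b L ω x v⟫_ℂ = Ph b L x ω * ⟪b 1, v⟫_ℂ := by
  have hz : ∀ h g : G, (g < 1 ∨ h < g) → ⟪b h, ev b L ω x (b g)⟫_ℂ * ⟪b g, v⟫_ℂ = 0 := by
    intro h g hg
    rcases hg with hg | hg
    · rw [hv g (by rwa [Set.mem_Ici, not_le]), mul_zero]
    · rw [NN_coef b L hL hx ω hg, zero_mul]
  constructor
  · intro h hh
    rw [Set.mem_Ici, not_le] at hh
    rw [inner_tsum b]
    have h0 : (fun g => ⟪b h, ev b L ω x (b g)⟫_ℂ * ⟪b g, v⟫_ℂ) = fun _ => 0 := by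
      funext g
      refine hz h g ?_
      rcases lt_or_ge g 1 with h1 | h1
      · exact Or.inl h1
      · exact Or.inr (hh.trans_le h1)
    rw [h0, tsum_zero]
  · rw [inner_tsum b, tsum_eq_single (1 : G)]
    · rfl
    · intro g hg
      refine hz 1 g ?_
      rcases lt_trichotomy g 1 with h1 | h1 | h1
      · exact Or.inl h1
      · exact absurd h1 hg
      · exact Or.inr h1

theorem NN_mul (b : HilbertBasis G ℂ H) (L : G → unitary (H →L[ℂ] H)) (hL : Reg b L)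
    {x y : CF (Ω := Ω) b L} (hx : NN b L x) (hy : NN b L y) : NN b L (x * y) := by
  intro ω
  rw [map_mul]
  exact (NN_map b L hL hx ω (hy ω)).1

theorem Ph_mul (b : HilbertBasis G ℂ H) (L : G → unitary (H →L[ℂ] H)) (hL : Reg b L)
    {x y : CF (Ω := Ω) b L} (hx : NN b L x) (hy : NN b L y) (ω : Ω) :
    Ph b L (x * y) ω = Ph b L x ω * Ph b L y ω := by
  unfold Ph
  rw [map_mul]
  exact (NN_map b L hL hx ω (hy ω)).2

/-- left translation by `p > 1` -/
theorem L_Ioi (b : HilbertBasis G ℂ H) (L : G → unitary (H →L[ℂ] H)) (hL : Reg b L) {p : G}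
    (hp : 1 < p) {v : H} (hv : v ∈ Kg b (Set.Ici (1 : G))) :
    (L p : H →L[ℂ] H) v ∈ Kg b (Set.Ioi (1 : G)) := by
  intro h hh
  rw [Set.mem_Ioi, not_lt] at hh
  rw [inner_L b L hL]
  refine hv _ ?_
  rw [Set.mem_Ici, not_le]
  have := mul_lt_mul_right (hh.trans_lt hp) p⁻¹
  simpa using this

end
end Pool.Agent.TH315.LO
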