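import Pool.Agent.TH315.LO.Jen

/-!
# Multiplicativity of the determinant
-/

set_option autoImplicit false
set_option linter.unusedSectionVars false
open scoped ComplexConjugate InnerProductSpace Topology
open Filter MeasureTheory

namespace Pool.Agent.TH315.LO
open Pool.Agent.H712R5.BO Pool.Agent.W611.RO Pool.Agent.TH322.AC

section
variable {A : Type} [CStarAlgebra A]

/-- `δ + X* X` is the exponential of a selfadjoint element -/
theorem Ex_logd (X : A) {δ : ℝ} (hδ : 0 < δ) :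
    Ex (CFC.log (algebraMap ℝ A δ + star X * X)) = algebraMap ℝ A δ + star X * X ∧
      star (CFC.log (algebraMap ℝ A δ + star X * X))
        = CFC.log (algebraMap ℝ A δ + star X * X) := by
  let := CStarAlgebra.spectralOrder A
  have := CStarAlgebra.spectralOrderedRing A
  let _ : NormedAlgebra ℚ A := NormedAlgebra.restrictScalars ℚ ℂ A
  have hpos : IsStrictlyPositive (algebraMap ℝ A δ + star X * X) :=
    IsStrictlyPositive.add_nonneg (isStrictlyPositive_algebraMap hδ) (star_mul_self_nonneg _)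
  refine ⟨CFC.exp_log _ hpos, ?_⟩
  exact IsSelfAdjoint.log

theorem tau_pow_comm (τ : A →L[ℂ] ℂ) (hτ : TrSt τ) (Z : A) (n : ℕ) :
    τ ((star Z * Z) ^ n) = τ ((Z * star Z) ^ n) := by
  cases n with
  | zero => rw [pow_zero, pow_zero]
  | succ n =>
    have h1 : ∀ n : ℕ, (star Z * Z) ^ n * star Z = star Z * (Z * star Z) ^ n := by
      intro n
      induction n with
      | zero => rw [pow_zero, pow_zero, one_mul, mul_one]
      | succ n ih =>
        rw [pow_succ, pow_succ', mul_assoc, mul_assoc, ← mul_assoc ((star Z * Z) ^ n), ih]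
        simp only [mul_assoc]
        congr 1
        rw [← mul_assoc Z, ← pow_succ, ← pow_succ']
    rw [pow_succ, ← mul_assoc, h1, mul_assoc, hτ.tr, mul_assoc, ← pow_succ]

theorem tau_aeval_comm (τ : A →L[ℂ] ℂ) (hτ : TrSt τ) (Z : A) (p : Polynomial ℝ) :
    τ (Polynomial.aeval (star Z * Z) p) = τ (Polynomial.aeval (Z * star Z) p) := by
  induction p using Polynomial.induction_on' with
  | add p q hp hq => rw [map_add, map_add, map_add, map_add, hp, hq]
  | monomial n c =>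
    rw [Polynomial.aeval_monomial, Polynomial.aeval_monomial, ← Algebra.smul_def,
      ← Algebra.smul_def, ← Complex.coe_smul, ← Complex.coe_smul, map_smul, map_smul,
      tau_pow_comm τ hτ]

theorem tau_cfc_comm (τ : A →L[ℂ] ℂ) (hτ : TrSt τ) (Z : A) (f : ℝ → ℝ)
    (hf : ContinuousOn f (Set.Icc 0 (‖Z‖ ^ 2))) :
    τ (cfc f (star Z * Z)) = τ (cfc f (Z * star Z)) := by
  have h1 : spectrum ℝ (star Z * Z) ⊆ Set.Icc 0 (‖Z‖ ^ 2) := spec_le Z le_rfl
  have h2 : spectrum ℝ (Z * star Z) ⊆ Set.Icc 0 (‖Z‖ ^ 2) := by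
    have := spec_le (star Z) (C := ‖Z‖) (by rw [norm_star])
    rwa [star_star] at this
  have key : ∀ ε : ℝ, 0 < ε → ‖τ (cfc f (star Z * Z)) - τ (cfc f (Z * star Z))‖ ≤ 2 * ε := by
    intro ε hε
    obtain ⟨p, hp⟩ := exists_polynomial_near_of_continuousOn 0 (‖Z‖ ^ 2) f hf ε hε
    have h3 : ∀ a : A, IsSelfAdjoint a → spectrum ℝ a ⊆ Set.Icc 0 (‖Z‖ ^ 2) →
        ‖τ (cfc f a) - τ (Polynomial.aeval a p)‖ ≤ ε := by
      intro a ha hs
      rw [← map_sub]
      refine (tau_le τ hτ _).trans ?_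
      rw [← cfc_polynomial p a, ← cfc_sub f p.eval a (hf.mono hs) (by fun_prop)]
      refine norm_cfc_le hε.le fun x hx => ?_
      have := hp x (hs hx)
      rw [Real.norm_eq_abs, abs_sub_comm]
      exact this.le
    have h4 := h3 _ (IsSelfAdjoint.star_mul_self Z) h1
    have h5 := h3 _ (IsSelfAdjoint.mul_star_self Z) h2
    have h6 := tau_aeval_comm τ hτ Z p
    calc ‖τ (cfc f (star Z * Z)) - τ (cfc f (Z * star Z))‖
        = ‖(τ (cfc f (star Z * Z)) - τ (Polynomial.aeval (star Z * Z) p))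
          - (τ (cfc f (Z * star Z)) - τ (Polynomial.aeval (Z * star Z) p))‖ := by
          rw [h6]; congr 1; ring
      _ ≤ ε + ε := (norm_sub_le _ _).trans (add_le_add h4 h5)
      _ = 2 * ε := by ring
  have h0 : ‖τ (cfc f (star Z * Z)) - τ (cfc f (Z * star Z))‖ ≤ 0 := by
    refine le_of_forall_pos_le_add fun ε hε => ?_
    have := key (ε / 2) (by linarith)
    linarith
  exact sub_eq_zero.1 (norm_le_zero_iff.1 h0)

theorem logdet_star (τ : A →L[ℂ] ℂ) (hτ : TrSt τ) (Z : A) {δ : ℝ} (hδ : 0 < δ) :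
    (τ (CFC.log (algebraMap ℝ A δ + star Z * Z))).re
      = (τ (CFC.log (algebraMap ℝ A δ + Z * star Z))).re := by
  have h1 := log_cfc Z hδ
  have h2 := log_cfc (star Z) hδ
  rw [star_star] at h2
  rw [h1, h2, tau_cfc_comm τ hτ Z]
  exact cont_log hδ _

theorem trace_inv (τ : A →L[ℂ] ℂ) (hτ : TrSt τ) (g K : A)
    (hg : IsSelfAdjoint g) {a b : ℝ} (ha : 0 < a) (hs : spectrum ℝ g ⊆ Set.Icc a b) :
    τ (cfc (fun x : ℝ => x⁻¹) g * ((1/2:ℝ) • (K * g + g * K))) = τ K := by
  have hci : ContinuousOn (fun x : ℝ => x⁻¹) (spectrum ℝ g) :=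
    continuousOn_id.inv₀ fun x hx => (ha.trans_le (hs hx).1).ne'
  have e1 : cfc (fun x : ℝ => x⁻¹) g * g = 1 := by
    calc cfc (fun x : ℝ => x⁻¹) g * g
        = cfc (fun x : ℝ => x⁻¹) g * cfc (fun x : ℝ => x) g := by
          rw [cfc_id' ℝ g]
      _ = cfc (fun x : ℝ => x⁻¹ * x) g :=
          (cfc_mul (fun x : ℝ => x⁻¹) (fun x : ℝ => x) g hci continuousOn_id).symm
      _ = cfc (fun _ : ℝ => (1:ℝ)) g := by
          refine cfc_congr fun x hx => ?_
          have hx0 : x ≠ 0 := (ha.trans_le (hs hx).1).ne'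
          exact inv_mul_cancel₀ hx0
      _ = 1 := cfc_const_one ℝ g
  have e2 : g * cfc (fun x : ℝ => x⁻¹) g = 1 := by
    rw [← e1]
    have := (cfc_commute_cfc (fun x : ℝ => x⁻¹) (fun x : ℝ => x) g).eq
    rw [cfc_id' ℝ g] at this
    exact this.symm
  have e3 : ((1/2:ℝ) • (K * g + g * K) : A) = (1/2:ℂ) • (K * g + g * K) := by
    rw [← Complex.coe_smul]
    norm_num
  rw [e3, mul_smul_comm, map_smul, mul_add, map_add, ← mul_assoc, ← mul_assoc, e1,
    hτ.tr (cfc (fun x : ℝ => x⁻¹) g * K) g, ← mul_assoc, e2, one_mul, smul_eq_mul]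
  ring

/-- multiplicativity for exponentials of selfadjoint elements -/
theorem logdet_mul_exp (τ : A →L[ℂ] ℂ) (hτ : TrSt τ) (h K : A) (hh : star h = h)
    (hK : star K = K) :
    (τ (CFC.log (Ex ((1/2 : ℝ) • K) * Ex h * Ex ((1/2 : ℝ) • K)))).re
      = (τ h).re + (τ K).re := by
  have hB2 : P_B2 := t_B2 t_B2a t_B1
  obtain ⟨a, b, ha, hab⟩ := t_B2c A h K hh hK
  have hab' : ∀ t ∈ Set.Ioo (-2:ℝ) 2, IsSelfAdjoint (B3_g h K t) ∧
      spectrum ℝ (B3_g h K t) ⊆ Set.Icc a b := hab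
  have hgc : Continuous fun t => (1/2:ℝ) • (K * B3_g h K t + B3_g h K t * K) :=
    (((continuous_const.mul (B3_cont h K)).add ((B3_cont h K).mul continuous_const)).const_smul _)
  obtain ⟨R, hR⟩ := (isCompact_Icc (a := (-2:ℝ)) (b := 2)).exists_bound_of_continuousOn
    hgc.continuousOn
  have hder := hB2 A τ hτ (B3_g h K) (fun t => (1/2:ℝ) • (K * B3_g h K t + B3_g h K t * K))
    (-2) 2 a b ha (fun t _ => B3_deriv h K t) hgc.continuousOn hab'
    ⟨R, fun t ht => hR t (Set.Ioo_subset_Icc_self ht)⟩ Real.log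
    (fun x : ℝ => x⁻¹) (fun x hx => Real.hasDerivAt_log hx.ne')
    (ContinuousOn.inv₀ continuousOn_id fun x hx => (ne_of_gt hx))
  have hder2 : ∀ t ∈ Set.Ioo (-2:ℝ) 2, HasDerivAt
      (fun s : ℝ => τ (cfc Real.log (B3_g h K s)) - (s : ℂ) * τ K) 0 t := by
    intro t ht
    have e := hder t ht
    rw [trace_inv τ hτ (B3_g h K t) K (hab' t ht).1 ha (hab' t ht).2] at e
    have e2 : HasDerivAt (fun s : ℝ => (s : ℂ) * τ K) (1 * τ K) t :=
      (Complex.ofRealCLM.hasDerivAt (x := t)).mul_const (τ K)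
    have e3 := e.sub e2
    rwa [one_mul, sub_self] at e3
  have hconst := constant_of_has_deriv_right_zero (a := (0:ℝ)) (b := 1)
    (f := fun s : ℝ => τ (cfc Real.log (B3_g h K s)) - (s : ℂ) * τ K)
    (fun t ht => (hder2 t ⟨by linarith [ht.1], by linarith [ht.2]⟩).continuousAt.continuousWithinAt)
    (fun t ht => (hder2 t ⟨by linarith [ht.1], by linarith [ht.2]⟩).hasDerivWithinAt) 1
    ⟨zero_le_one, le_rfl⟩
  have h0 : B3_g h K 0 = Ex h := by
    unfold B3_g Ex
    rw [zero_div, zero_smul, NormedSpace.exp_zero, one_mul, mul_one]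
  have h1 : B3_g h K 1 = Ex ((1/2 : ℝ) • K) * Ex h * Ex ((1/2 : ℝ) • K) := rfl
  have h2 : cfc Real.log (Ex h) = h := by
    let _ : NormedAlgebra ℚ A := NormedAlgebra.restrictScalars ℚ ℂ A
    exact CFC.log_exp h hh
  simp only [h0, h1, h2] at hconst
  have h3 : τ (CFC.log (Ex ((1/2 : ℝ) • K) * Ex h * Ex ((1/2 : ℝ) • K))) = τ h + τ K := by
    have h4 : τ (cfc Real.log (Ex ((1/2 : ℝ) • K) * Ex h * Ex ((1/2 : ℝ) • K))) = τ h + τ K := by
      have h5 : (((1:ℝ)) : ℂ) = 1 := by norm_num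
      have h6 : (((0:ℝ)) : ℂ) = 0 := by norm_num
      rw [h5, h6, one_mul, zero_mul, sub_zero] at hconst
      rw [← hconst]
      ring
    exact h4
  rw [h3, Complex.add_re]

/-- supermultiplicativity of the regularized determinants -/
theorem logdet_mul (τ : A →L[ℂ] ℂ) (hτ : TrSt τ) (X Y : A) {δ : ℝ} (hδ : 0 < δ) :
    ∃ ε ε' : ℝ, 0 < ε ∧ 0 < ε' ∧
      (τ (CFC.log (algebraMap ℝ A ε + star X * X))).re
        + (τ (CFC.log (algebraMap ℝ A ε' + star Y * Y))).re
      ≤ (τ (CFC.log (algebraMap ℝ A δ + star (X * Y) * (X * Y)))).re := by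
  let := CStarAlgebra.spectralOrder A
  have := CStarAlgebra.spectralOrderedRing A
  obtain ⟨-, hmono⟩ := t_D1 A τ hτ
  -- first regularization
  set ε : ℝ := δ / (2 * (‖Y‖ ^ 2 + 1)) with hε
  have hε0 : 0 < ε := by positivity
  have hεY : ε * ‖Y‖ ^ 2 ≤ δ / 2 := by
    rw [hε, div_mul_eq_mul_div, div_le_div_iff₀ (by positivity) (by norm_num)]
    nlinarith [sq_nonneg ‖Y‖]
  obtain ⟨hK1, hK2⟩ := Ex_logd X hε0
  set K : A := CFC.log (algebraMap ℝ A ε + star X * X) with hK
  set C : A := Ex ((1/2 : ℝ) • K) with hC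
  have hCs : star C = C := Ex_star K hK2 _
  have hCC : C * C = algebraMap ℝ A ε + star X * X := by
    rw [hC, Ex_add, ← hK1]
    norm_num
  -- second regularization
  set ε' : ℝ := δ / (2 * (‖C‖ ^ 2 + 1)) with hε'
  have hε'0 : 0 < ε' := by positivity
  have hε'C : ε' * ‖C‖ ^ 2 ≤ δ / 2 := by
    rw [hε', div_mul_eq_mul_div, div_le_div_iff₀ (by positivity) (by norm_num)]
    nlinarith [sq_nonneg ‖C‖]
  have hY' := Ex_logd (star Y) hε'0
  rw [star_star] at hY'
  obtain ⟨hh1, hh2⟩ := hY'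
  set h : A := CFC.log (algebraMap ℝ A ε' + Y * star Y) with hh
  refine ⟨ε, ε', hε0, hε'0, ?_⟩
  have hconj : ∀ (Z : A) (c : ℝ), 0 ≤ c → star Z * algebraMap ℝ A c * Z ≤ algebraMap ℝ A (c * ‖Z‖ ^ 2) := by
    intro Z c hc
    rw [Algebra.algebraMap_eq_smul_one, mul_smul_comm, mul_one, smul_mul_assoc,
      Algebra.algebraMap_eq_smul_one, mul_smul]
    refine smul_le_smul_of_nonneg_left ?_ hc
    rw [← Algebra.algebraMap_eq_smul_one]
    have h3 := (IsSelfAdjoint.star_mul_self Z).le_algebraMap_norm_self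
    rwa [CStarRing.norm_star_mul_self, ← sq] at h3
  -- step 1
  have s1 : algebraMap ℝ A (δ / 2) + star (C * Y) * (C * Y)
      ≤ algebraMap ℝ A δ + star (X * Y) * (X * Y) := by
    have e1 : star (C * Y) * (C * Y) = star Y * algebraMap ℝ A ε * Y + star (X * Y) * (X * Y) := by
      rw [star_mul, hCs, star_mul]
      have : star Y * C * (C * Y) = star Y * (C * C) * Y := by simp only [mul_assoc]
      rw [this, hCC]
      simp only [mul_add, add_mul, mul_assoc]
    have e2 := (hconj Y ε hε0.le).trans (algebraMap_mono A hεY)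
    have e3 : algebraMap ℝ A δ = algebraMap ℝ A (δ / 2) + algebraMap ℝ A (δ / 2) := by
      rw [← map_add, add_halves]
    rw [e1, e3, add_assoc]
    refine add_le_add_right ?_ _
    exact add_le_add_left e2 _
  -- step 2
  have s2 : C * (algebraMap ℝ A ε' + Y * star Y) * C
      ≤ algebraMap ℝ A (δ / 2) + (C * Y) * star (C * Y) := by
    have e1 : C * (algebraMap ℝ A ε' + Y * star Y) * C
        = star C * algebraMap ℝ A ε' * C + (C * Y) * star (C * Y) := by
      rw [star_mul, hCs]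
      simp only [mul_add, add_mul, mul_assoc]
    rw [e1]
    exact add_le_add_left ((hconj C ε' hε'0.le).trans (algebraMap_mono A hε'C)) _
  have hpos1 : IsStrictlyPositive (algebraMap ℝ A (δ / 2) + star (C * Y) * (C * Y)) :=
    IsStrictlyPositive.add_nonneg (isStrictlyPositive_algebraMap (by positivity))
      (star_mul_self_nonneg _)
  have hpos2 : IsStrictlyPositive (C * (algebraMap ℝ A ε' + Y * star Y) * C) := by
    rw [← hh1]
    have e1 : C * Ex h * C = star (Ex ((1/2:ℝ) • h) * C) * (Ex ((1/2:ℝ) • h) * C) := by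
      rw [star_mul, hCs, Ex_star h hh2]
      have : C * Ex ((1/2:ℝ) • h) * (Ex ((1/2:ℝ) • h) * C)
          = C * (Ex ((1/2:ℝ) • h) * Ex ((1/2:ℝ) • h)) * C := by simp only [mul_assoc]
      rw [this, Ex_add]
      norm_num
    have hu : IsUnit (Ex ((1/2:ℝ) • h) * C) := by
      let _ : NormedAlgebra ℚ A := NormedAlgebra.restrictScalars ℚ ℂ A
      exact (NormedSpace.isUnit_exp _).mul (NormedSpace.isUnit_exp _)
    rw [e1]
    exact ⟨star_mul_self_nonneg _, hu.star.mul hu⟩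
  have t1 := hmono _ _ hpos1 s1
  have t2 := hmono _ _ hpos2 s2
  have t3 := logdet_star τ hτ (C * Y) (δ := δ / 2) (by positivity)
  have t4 := logdet_mul_exp τ hτ h K hh2 hK2
  rw [← hC, hh1] at t4
  have t5 := logdet_star τ hτ Y hε'0
  rw [t5]
  linarith

/-- the determinants of the powers -/
theorem logdet_pow (τ : A →L[ℂ] ℂ) (hτ : TrSt τ) (X : A) (c : ℝ)
    (hc : ∀ δ : ℝ, 0 < δ → c ≤ (τ (CFC.log (algebraMap ℝ A δ + star X * X))).re) (k : ℕ) :
    ∀ δ : ℝ, 0 < δ → k * c ≤ (τ (CFC.log (algebraMap ℝ A δ + star (X ^ k) * X ^ k))).re := by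
  induction k with
  | zero =>
    intro δ hδ
    rw [pow_zero, star_one, one_mul, Nat.cast_zero, zero_mul]
    have h1 : (algebraMap ℝ A δ + 1 : A) = algebraMap ℝ A (δ + 1) := by rw [map_add, map_one]
    rw [h1, CFC.log_algebraMap, D7_algMap τ hτ]
    exact Real.log_nonneg (by linarith)
  | succ k ih =>
    intro δ hδ
    obtain ⟨ε, ε', h1, h2, h3⟩ := logdet_mul τ hτ (X ^ k) X hδ
    have h4 := ih ε h1
    have h5 := hc ε' h2
    rw [pow_succ]
    push_cast
    linarith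

end
end Pool.Agent.TH315.LO
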