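import Mathlib

/-!
# A point near the mean where the logarithmic potential exceeds that of the point mass
-/

set_option autoImplicit false
open Filter MeasureTheory Set
open scoped Topology

namespace Pool.Agent.TH315.LO

theorem exists_mu {Ω : Type} [MeasurableSpace Ω] (P : Measure Ω) [IsProbabilityMeasure P]
    (a : Ω → ℂ) (ham : Measurable a) (B : ℝ) (haB : ∀ ω, ‖a ω‖ ≤ B) (m : ℂ)
    (hnc : ¬ ∀ᵐ ω ∂P, a ω = m) (ρ : ℝ) (hρ : 0 < ρ) :
    ∃ (μ : ℂ) (r : ℝ), 0 < r ∧ r < ρ ∧ ‖μ - m‖ = r ∧ (∀ᵐ ω ∂P, a ω ≠ μ) ∧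
      Integrable (fun ω => Real.log ‖a ω - μ‖) P ∧
      Real.log r < ∫ ω, Real.log ‖a ω - μ‖ ∂P := by
  -- the radius
  obtain ⟨n, hn⟩ : ∃ n : ℕ, P {ω | ‖a ω - m‖ ≤ 1 / ((n : ℝ) + 1)}ᶜ ≠ 0 := by
    by_contra hcon
    push Not at hcon
    apply hnc
    have h1 : ∀ᵐ ω ∂P, ∀ n : ℕ, ‖a ω - m‖ ≤ 1 / ((n : ℝ) + 1) := ae_all_iff.2 hcon
    filter_upwards [h1] with ω hω
    have h2 : ‖a ω - m‖ ≤ 0 := ge_of_tendsto' tendsto_one_div_add_atTop_nhds_zero_nat hω
    exact sub_eq_zero.1 (norm_le_zero_iff.1 h2)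
  set r0 : ℝ := 1 / ((n : ℝ) + 1) with hr0
  have hr00 : 0 < r0 := by positivity
  set r : ℝ := min r0 (ρ / 2) with hr
  have hr1 : 0 < r := lt_min hr00 (by linarith)
  have hr2 : r < ρ := (min_le_right _ _).trans_lt (by linarith)
  have hpi := Real.pi_pos
  set ν : Measure ℝ := volume.restrict (Ioc 0 (2 * Real.pi)) with hν
  have hνu : ν univ = ENNReal.ofReal (2 * Real.pi) := by
    rw [hν, Measure.restrict_apply_univ, Real.volume_Ioc, sub_zero]
  have hν0 : ν ≠ 0 := by
    intro h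
    rw [h] at hνu
    have : (0 : ENNReal) = ENNReal.ofReal (2 * Real.pi) := hνu
    rw [eq_comm, ENNReal.ofReal_eq_zero] at this
    linarith
  have hνfin : IsFiniteMeasure ν := ⟨by rw [hνu]; exact ENNReal.ofReal_lt_top⟩
  have hνr : ν.real univ = 2 * Real.pi := by
    rw [Measure.real, hνu, ENNReal.toReal_ofReal (by positivity)]
  set F : Ω × ℝ → ℝ := fun p => Real.log ‖circleMap m r p.2 - a p.1‖ with hF
  have hFm : Measurable F := by
    refine Real.measurable_log.comp (Measurable.norm ?_)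
    exact ((continuous_circleMap m r).measurable.comp measurable_snd).sub
      (ham.comp measurable_fst)
  -- the upper bound
  set C : ℝ := ‖m‖ + r + |B| with hC
  have hC0 : 0 ≤ C := by positivity
  have hFC : ∀ p, F p ≤ C := by
    intro p
    have h1 : ‖circleMap m r p.2 - a p.1‖ ≤ C := by
      have h2 : ‖circleMap m r p.2‖ ≤ ‖m‖ + r := by
        have h3 : ‖circleMap m r p.2 - m‖ = r := by
          rw [circleMap_sub_center, norm_circleMap_zero, abs_of_pos hr1]
        calc ‖circleMap m r p.2‖ = ‖m + (circleMap m r p.2 - m)‖ := by rw [add_sub_cancel]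
          _ ≤ ‖m‖ + ‖circleMap m r p.2 - m‖ := norm_add_le _ _
          _ = _ := by rw [h3]
      have h4 := haB p.1
      have h5 := le_abs_self B
      calc _ ≤ ‖circleMap m r p.2‖ + ‖a p.1‖ := norm_sub_le _ _
        _ ≤ C := by rw [hC]; linarith
    rcases eq_or_lt_of_le (norm_nonneg (circleMap m r p.2 - a p.1)) with h | h
    · show Real.log ‖circleMap m r p.2 - a p.1‖ ≤ C
      rw [← h, Real.log_zero]; exact hC0
    · have := Real.log_le_sub_one_of_pos h
      show Real.log ‖circleMap m r p.2 - a p.1‖ ≤ C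
      linarith
  -- circle averages
  have hci : ∀ ω, Integrable (fun θ => F (ω, θ)) ν := by
    intro ω
    have h1 : CircleIntegrable (fun z => Real.log ‖z - a ω‖) m r :=
      circleIntegrable_log_norm_sub_const r
    unfold CircleIntegrable at h1
    rw [intervalIntegrable_iff_integrableOn_Ioc_of_le (by positivity)] at h1
    exact h1
  have hca : ∀ ω, ∫ θ, F (ω, θ) ∂ν = 2 * Real.pi * (Real.log r + Real.posLog (r⁻¹ * ‖m - a ω‖)) := by
    intro ω
    have h1 := circleAverage_log_norm_sub_const_eq_log_radius_add_posLog (c := m) (a := a ω)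
      (R := r) hr1.ne'
    rw [Real.circleAverage_def, intervalIntegral.integral_of_le (by positivity), smul_eq_mul] at h1
    rw [← h1, ← mul_assoc, mul_inv_cancel₀ (by positivity), one_mul]
  have hint : Integrable F (P.prod ν) := by
    rw [integrable_prod_iff hFm.aestronglyMeasurable]
    refine ⟨Eventually.of_forall hci, ?_⟩
    refine Integrable.of_bound (C := 2 * Real.pi * (2 * C + |Real.log r|))
      hFm.norm.stronglyMeasurable.integral_prod_right'.aestronglyMeasurable
      (Eventually.of_forall fun ω => ?_)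
    rw [Real.norm_eq_abs, abs_of_nonneg (integral_nonneg fun _ => norm_nonneg _)]
    have h1 : ∫ θ, ‖F (ω, θ)‖ ∂ν ≤ ∫ θ, (2 * C - F (ω, θ)) ∂ν := by
      refine integral_mono (hci ω).norm ((integrable_const _).sub (hci ω)) fun θ => ?_
      have h2 := hFC (ω, θ)
      show ‖F (ω, θ)‖ ≤ 2 * C - F (ω, θ)
      rw [Real.norm_eq_abs, abs_le]
      constructor <;> linarith
    have h2 : ∫ θ, (2 * C - F (ω, θ)) ∂ν = 2 * Real.pi * (2 * C) - ∫ θ, F (ω, θ) ∂ν := by
      rw [integral_sub (integrable_const _) (hci ω), integral_const, hνr, smul_eq_mul]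
    rw [h2, hca] at h1
    refine h1.trans ?_
    have h3 : 0 ≤ Real.posLog (r⁻¹ * ‖m - a ω‖) := Real.posLog_nonneg
    have h4 := neg_abs_le (Real.log r)
    have : 2 * Real.pi * (2 * C) - 2 * Real.pi * (Real.log r + Real.posLog (r⁻¹ * ‖m - a ω‖))
        = 2 * Real.pi * (2 * C - Real.log r - Real.posLog (r⁻¹ * ‖m - a ω‖)) := by ring
    rw [this]
    refine mul_le_mul_of_nonneg_left ?_ (by positivity)
    linarith
  -- the mean over the circle
  set f : ℝ → ℝ := fun θ => ∫ ω, F (ω, θ) ∂P with hf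
  have hfi : Integrable f ν := hint.integral_prod_right
  have hsum : ∫ θ, f θ ∂ν = ∫ ω, ∫ θ, F (ω, θ) ∂ν ∂P :=
    (integral_integral_swap (f := fun ω θ => F (ω, θ)) hint).symm
  have hpl : Integrable (fun ω => Real.posLog (r⁻¹ * ‖m - a ω‖)) P := by
    have h1 : Integrable (fun ω => ∫ θ, F (ω, θ) ∂ν) P := hint.integral_prod_left
    simp_rw [hca] at h1
    have h2 := (h1.const_mul (2 * Real.pi)⁻¹).sub (integrable_const (Real.log r))
    refine h2.congr (Eventually.of_forall fun ω => ?_)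
    show (2 * Real.pi)⁻¹ * (2 * Real.pi * (Real.log r + Real.posLog (r⁻¹ * ‖m - a ω‖)))
      - Real.log r = _
    rw [← mul_assoc, inv_mul_cancel₀ (by positivity), one_mul, add_sub_cancel_left]
  have hε : 0 < ∫ ω, Real.posLog (r⁻¹ * ‖m - a ω‖) ∂P := by
    rw [integral_pos_iff_support_of_nonneg (fun ω => Real.posLog_nonneg) hpl]
    refine lt_of_lt_of_le (pos_iff_ne_zero.2 hn) (measure_mono ?_)
    intro ω hω
    rw [mem_compl_iff] at hω
    have hω' : r0 < ‖a ω - m‖ := by
      by_contra h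
      exact hω (not_lt.1 h)
    rw [Function.mem_support]
    have h1 : 1 < r⁻¹ * ‖m - a ω‖ := by
      rw [norm_sub_rev, inv_mul_eq_div, one_lt_div hr1]
      exact (min_le_left _ _).trans_lt hω'
    rw [Real.posLog_eq_log (by rw [abs_of_pos (by linarith)]; exact h1.le)]
    exact (Real.log_pos h1).ne'
  have hav : ⨍ θ, f θ ∂ν = Real.log r + ∫ ω, Real.posLog (r⁻¹ * ‖m - a ω‖) ∂P := by
    rw [average_eq, hνr, hsum]
    simp_rw [hca]
    rw [integral_const_mul, integral_add (integrable_const _) hpl, integral_const, smul_eq_mul,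
      smul_eq_mul, ← mul_assoc, inv_mul_cancel₀ (by positivity), one_mul]
    simp
  -- the exceptional angles
  set N : Set ℝ := {θ | ¬ (Integrable (fun ω => F (ω, θ)) P ∧ P {ω | a ω = circleMap m r θ} = 0)}
    with hN
  have hNnull : ν N = 0 := by
    have h1 : ∀ᵐ θ ∂ν, Integrable (fun ω => F (ω, θ)) P := hint.prod_left_ae
    have h2 : ∀ᵐ θ ∂ν, P {ω | a ω = circleMap m r θ} = 0 := by
      have h3 : {t : ℂ | 0 < P {ω | a ω = t}}.Countable := Measure.countable_meas_level_set_pos ham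
      have h4 := h3.preimage_circleMap m hr1.ne'
      have h5 : ν (circleMap m r ⁻¹' {t : ℂ | 0 < P {ω | a ω = t}}) = 0 := h4.measure_zero ν
      rw [ae_iff]
      refine measure_mono_null ?_ h5
      intro θ hθ
      exact pos_iff_ne_zero.2 hθ
    exact (h1.and h2)
  obtain ⟨θ, hθN, hθ⟩ := exists_notMem_null_average_le hν0 hfi hNnull
  have hθ' : Integrable (fun ω => F (ω, θ)) P ∧ P {ω | a ω = circleMap m r θ} = 0 := by
    by_contra h
    exact hθN h
  have hsymm : ∀ ω, F (ω, θ) = Real.log ‖a ω - circleMap m r θ‖ := by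
    intro ω
    show Real.log ‖circleMap m r θ - a ω‖ = _
    rw [norm_sub_rev]
  refine ⟨circleMap m r θ, r, hr1, hr2, ?_, ?_, ?_, ?_⟩
  · rw [circleMap_sub_center, norm_circleMap_zero, abs_of_pos hr1]
  · rw [ae_iff]
    simpa using hθ'.2
  · have := hθ'.1
    simp_rw [hsymm] at this
    exact this
  · have h1 : f θ = ∫ ω, Real.log ‖a ω - circleMap m r θ‖ ∂P := by
      show ∫ ω, F (ω, θ) ∂P = _
      simp_rw [hsymm]
    rw [← h1]
    rw [hav] at hθ
    linarith

end Pool.Agent.TH315.LO
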