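import Pool.Agent.TH315.LO.Lead
import Pool.Agent.TH315.LO.Det
import Pool.Agent.TH315.LO.Pot
import Pool.Agent.W545.RO.Erg

/-!
# Covariant fields over left-ordered groups: hyperinvariant subspaces
-/

set_option autoImplicit false
set_option linter.unusedSectionVars false
open scoped ComplexConjugate InnerProductSpace Topology BoundedContinuousFunction
open Filter MeasureTheory

namespace Pool.Agent.TH315.LO
open Pool.Agent.H712R5.BO Pool.Agent.W611.RO Pool.Agent.TH322.AC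

theorem hyp_shift {H : Type} [NormedAddCommGroup H] [NormedSpace ℂ H] (T : H →L[ℂ] H)
    (d : ℂ) (h : HasHyp (T - d • (1 : H →L[ℂ] H))) : HasHyp T := by
  obtain ⟨V, h1, h2, h3, h4⟩ := h
  refine ⟨V, h1, h2, h3, fun R hR x hx => h4 R ?_ x hx⟩
  rw [mul_sub, sub_mul, hR, mul_smul_comm, smul_mul_assoc, mul_one, one_mul]

section
variable {G Ω H : Type} [Group G] [Countable G] [MeasurableSpace Ω] [MulAction G Ω]
  [NormedAddCommGroup H] [InnerProductSpace ℂ H] [CompleteSpace H]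
  {P : Measure Ω} {b : HilbertBasis G ℂ H} {L : G → unitary (H →L[ℂ] H)}
  [LinearOrder G] [MulLeftStrictMono G]

/-- fields whose leading coefficient is larger in the mean than their trace -/
theorem lead_hyp [IsProbabilityMeasure P] (hL : Reg b L) (herg : Erg G P)
    (S : CF (Ω := Ω) b L) (m : G) (f : Ω → ℂ) (hS : Ld b L S m f)
    (h0 : ∀ᵐ ω ∂P, f ω ≠ 0) (hi : Integrable (fun ω => Real.log ‖f ω‖) P)
    (hτS : ‖tau P b L S‖ < Real.exp (∫ ω, Real.log ‖f ω‖ ∂P)) :
    ∀ᵐ ω ∂P, HasHyp (ev b L ω S) := by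
  have hτ : TrSt (tau P b L) := t_TR G Ω H P b L hL herg.mp
  set κ : ℝ := ∫ ω, Real.log ‖f ω‖ ∂P with hκ
  have hl0 : 0 < Real.exp (-κ) := Real.exp_pos _
  have hsm : ‖tau P b L (((Real.exp (-κ) : ℝ) : ℂ) • S)‖ < 1 := by
    rw [map_smul, smul_eq_mul, norm_mul, Complex.norm_real, Real.norm_eq_abs, abs_of_pos hl0]
    calc Real.exp (-κ) * ‖tau P b L S‖ < Real.exp (-κ) * Real.exp κ :=
          mul_lt_mul_of_pos_left hτS hl0
      _ = 1 := by rw [← Real.exp_add, neg_add_cancel, Real.exp_zero]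
  have hdet2 : ∀ (k : ℕ) (δ : ℝ), 1 ≤ k → 0 < δ →
      0 ≤ (tau P b L (CFC.log (algebraMap ℝ (CF (Ω := Ω) b L) δ
        + star ((((Real.exp (-κ) : ℝ) : ℂ) • S) ^ k)
          * (((Real.exp (-κ) : ℝ) : ℂ) • S) ^ k))).re := by
    intro k δ _ hδ
    rw [logdet_smul (tau P b L) hτ S hδ hl0 k, Real.log_exp]
    have h1 := logdet_pow (tau P b L) hτ S (2 * κ)
      (fun δ' hδ' => jen_lead hL herg.mp S m f hS h0 hi hδ') k
      (δ / (Real.exp (-κ) ^ 2) ^ k) (by positivity)
    linarith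
  have hmain := t_ABS1 Ω P G H (CF (Ω := Ω) b L) (tau P b L) (fun ω => ev b L ω) (fun k => b k)
    (b 1) hτ (b.orthonormal.1 1) (Pool.Agent.W253.RO.total b)
    (fun A => (Pool.Agent.W540.RO.t_N2 G Ω H P b L hL herg.mp A).1)
    (fun A => ⟨ev_int P b L A _ _, tau_apply P b L A⟩)
    (fun A k => ⟨((Pool.Agent.W540.RO.t_N2 G Ω H P b L hL herg.mp A).2 k).1,
      ((Pool.Agent.W540.RO.t_N2 G Ω H P b L hL herg.mp A).2 k).2.le⟩)
    (fun B R hB => Pool.Agent.W545.RO.t_ERG G Ω H P b L hL herg B R hB)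
    (((Real.exp (-κ) : ℝ) : ℂ) • S) hsm hdet2
  filter_upwards [hmain] with ω hω
  have h1 : ev b L ω (((Real.exp (-κ) : ℝ) : ℂ) • S)
      = ((Real.exp (-κ) : ℝ) : ℂ) • ev b L ω S := by
    rw [map_smul]
  rw [h1] at hω
  exact Pool.Agent.W253.RO.hasHyp_of_smul _ _ hω

theorem ev_sub_smul (S : CF (Ω := Ω) b L) (μ : ℂ) (ω : Ω) :
    ev b L ω (S - μ • (1 : CF (Ω := Ω) b L)) = ev b L ω S - μ • 1 := by
  have e3 : ev b L ω (μ • (1 : CF (Ω := Ω) b L)) = μ • 1 := by
    rw [map_smul, map_one]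
  rw [map_sub, e3]

/-- the main theorem for covariant fields -/
theorem cov_hyp [IsProbabilityMeasure P] (hL : Reg b L) (herg : Erg G P)
    (S : CF (Ω := Ω) b L) (m : G) (f : Ω → ℂ) (hS : Ld b L S m f)
    (hf : (m ≠ 1 ∧ (∀ᵐ ω ∂P, f ω ≠ 0) ∧ Integrable (fun ω => Real.log ‖f ω‖) P) ∨
      (m = 1 ∧ ¬ ∃ c : ℂ, ∀ᵐ ω ∂P, f ω = c)) :
    ∀ᵐ ω ∂P, HasHyp (ev b L ω S) := by
  classical
  have hτ : TrSt (tau P b L) := t_TR G Ω H P b L hL herg.mp
  rcases hf with ⟨hm, h0, hi⟩ | ⟨rfl, hnc⟩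
  · rcases lt_or_gt_of_ne hm with hm1 | hm1
    · -- the identity is not the leading term
      have hX : Ld b L (S - tau P b L S • (1 : CF (Ω := Ω) b L)) m f := by
        intro ω
        rw [ev_sub_smul]
        have e1 : (ev b L ω S - tau P b L S • (1 : H →L[ℂ] H)) (b 1)
            = ev b L ω S (b 1) - tau P b L S • b 1 := rfl
        rw [e1]
        refine ⟨Submodule.sub_mem _ (hS ω).1 (Submodule.smul_mem _ _
          (b_mem_Kg b (Set.mem_Ici.2 hm1.le))), ?_⟩
        rw [inner_sub_right, inner_smul_right, orthonormal_iff_ite.1 b.orthonormal, if_neg hm,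
          mul_zero, sub_zero]
        exact (hS ω).2
      have h1 := lead_hyp (P := P) hL herg _ m f hX h0 hi (by
        rw [map_sub, map_smul, hτ.one, smul_eq_mul, mul_one, sub_self, norm_zero]
        exact Real.exp_pos _)
      filter_upwards [h1] with ω hω
      rw [ev_sub_smul] at hω
      exact hyp_shift _ _ hω
    · refine lead_hyp (P := P) hL herg S m f hS h0 hi ?_
      have h1 : tau P b L S = 0 := by
        rw [tau_apply]
        have h2 : ∀ ω, ⟪b 1, ev b L ω S (b 1)⟫_ℂ = 0 := by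
          intro ω
          refine (hS ω).1 1 ?_
          rw [Set.mem_Ici, not_le]
          exact hm1
        simp_rw [h2]
        exact integral_zero _ _
      rw [h1, norm_zero]
      exact Real.exp_pos _
  · have hf' : ∀ ω, f ω = Ph b L S ω := fun ω => (hS ω).2.symm
    have hfe : f = Ph b L S := funext hf'
    rw [hfe] at hS hnc
    have hnc' : ¬ ∀ᵐ ω ∂P, Ph b L S ω = tau P b L S := fun h => hnc ⟨_, h⟩
    obtain ⟨μ, r, hr0, -, hμm, hμ0, hμi, hμr⟩ := exists_mu P (Ph b L S) (Ph_meas b L S) ‖S‖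
      (Ph_le b L S) (tau P b L S) hnc' 1 one_pos
    have hX : Ld b L (S - μ • (1 : CF (Ω := Ω) b L)) 1 (fun ω => Ph b L S ω - μ) := by
      intro ω
      rw [ev_sub_smul]
      have e1 : (ev b L ω S - μ • (1 : H →L[ℂ] H)) (b 1)
          = ev b L ω S (b 1) - μ • b 1 := rfl
      rw [e1]
      refine ⟨Submodule.sub_mem _ (hS ω).1 (Submodule.smul_mem _ _
        (b_mem_Kg b (Set.mem_Ici.2 le_rfl))), ?_⟩
      rw [inner_sub_right, inner_smul_right, orthonormal_iff_ite.1 b.orthonormal, if_pos rfl,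
        mul_one]
      rfl
    have h1 := lead_hyp (P := P) hL herg _ 1 _ hX (by
      filter_upwards [hμ0] with ω hω
      exact sub_ne_zero.2 hω) hμi (by
      rw [map_sub, map_smul, hτ.one, smul_eq_mul, mul_one, norm_sub_rev, hμm]
      calc r = Real.exp (Real.log r) := (Real.exp_log hr0).symm
        _ < _ := Real.exp_lt_exp.2 hμr)
    filter_upwards [h1] with ω hω
    rw [ev_sub_smul] at hω
    exact hyp_shift _ _ hω

end
end Pool.Agent.TH315.LO
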