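import Pool.Agent.TH315.LO.Iso

/-!
# Factorization of invertible positive fields along a left order
-/

set_option autoImplicit false
set_option linter.unusedSectionVars false
open scoped ComplexConjugate InnerProductSpace Topology BoundedContinuousFunction
open Filter MeasureTheory

namespace Pool.Agent.TH315.LO
open Pool.Agent.H712R5.BO Pool.Agent.W611.RO Pool.Agent.TH322.AC

section
variable {G Ω H : Type} [Group G] [Countable G] [MeasurableSpace Ω] [MulAction G Ω]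
  [NormedAddCommGroup H] [InnerProductSpace ℂ H] [CompleteSpace H]

theorem star_L_L (b : HilbertBasis G ℂ H) (L : G → unitary (H →L[ℂ] H)) (hL : Reg b L) (k l : G)
    (x : H) : star (L k : H →L[ℂ] H) ((L l : H →L[ℂ] H) x) = (L (k⁻¹ * l) : H →L[ℂ] H) x := by
  have : star (L k : H →L[ℂ] H) * (L l : H →L[ℂ] H) = (L (k⁻¹ * l) : H →L[ℂ] H) := by
    refine Pool.Agent.W253.RO.clm_ext b _ _ fun m => ?_
    show star (L k : H →L[ℂ] H) ((L l : H →L[ℂ] H) (b m)) = _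
    rw [hL, L_star b L hL, hL, mul_assoc]
  exact congrArg (fun T : H →L[ℂ] H => T x) this

theorem L_one (b : HilbertBasis G ℂ H) (L : G → unitary (H →L[ℂ] H)) (hL : Reg b L)
    (x : H) : (L 1 : H →L[ℂ] H) x = x := by
  have : (L 1 : H →L[ℂ] H) = 1 := by
    refine Pool.Agent.W253.RO.clm_ext b _ _ fun m => ?_
    rw [hL, one_mul]
    rfl
  rw [this]
  rfl

theorem inner_L_L (b : HilbertBasis G ℂ H) (L : G → unitary (H →L[ℂ] H)) (hL : Reg b L) (k l : G)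
    (x y : H) : ⟪(L l : H →L[ℂ] H) x, (L k : H →L[ℂ] H) y⟫_ℂ
      = ⟪(L (k⁻¹ * l) : H →L[ℂ] H) x, y⟫_ℂ := by
  rw [← star_L_L b L hL, ContinuousLinearMap.star_eq_adjoint,
    ContinuousLinearMap.adjoint_inner_left]

theorem WM.vec (b : HilbertBasis G ℂ H) {A : Ω → (H →L[ℂ] H)} (hA : WM A) {ξ : Ω → H}
    (hξ : ∀ x, Measurable (fun ω => ⟪x, ξ ω⟫_ℂ)) (x : H) :
    Measurable (fun ω => ⟪x, A ω (ξ ω)⟫_ℂ) := by
  have h1 : ∀ ω, ⟪x, A ω (ξ ω)⟫_ℂ = ∑' k : G, ⟪x, A ω (b k)⟫_ℂ * ⟪b k, ξ ω⟫_ℂ := by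
    intro ω
    have h2 : ∀ w : H, ⟪x, A ω w⟫_ℂ = ⟪star (A ω) x, w⟫_ℂ := by
      intro w
      rw [ContinuousLinearMap.star_eq_adjoint, ContinuousLinearMap.adjoint_inner_left]
    rw [h2, ← b.tsum_inner_mul_inner]
    refine tsum_congr fun k => ?_
    rw [h2]
  simp_rw [h1]
  exact Measurable.tsum fun k => (hA x (b k)).mul (hξ (b k))

theorem meas_norm (b : HilbertBasis G ℂ H) {ζ : Ω → H}
    (hζ : ∀ x, Measurable (fun ω => ⟪x, ζ ω⟫_ℂ)) : Measurable (fun ω => ‖ζ ω‖) := by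
  have h1 : ∀ ω, ‖ζ ω‖ = √((∑' k : G, ⟪ζ ω, b k⟫_ℂ * ⟪b k, ζ ω⟫_ℂ).re) := by
    intro ω
    have h2 : (⟪ζ ω, ζ ω⟫_ℂ).re = ‖ζ ω‖ ^ 2 := inner_self_eq_norm_sq (𝕜 := ℂ) (ζ ω)
    rw [b.tsum_inner_mul_inner, h2, Real.sqrt_sq (norm_nonneg _)]
  simp_rw [h1]
  refine (Complex.measurable_re.comp (Measurable.tsum fun k => ?_)).sqrt
  refine Measurable.mul ?_ (hζ (b k))
  have h2 : ∀ ω, ⟪ζ ω, b k⟫_ℂ = conj ⟪b k, ζ ω⟫_ℂ := fun ω => (inner_conj_symm _ _).symm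
  simp_rw [h2]
  exact Complex.continuous_conj.measurable.comp (hζ (b k))

variable [LinearOrder G] [MulLeftStrictMono G]

theorem fac (b : HilbertBasis G ℂ H) (L : G → unitary (H →L[ℂ] H)) (hL : Reg b L)
    (hmeas : ∀ g : G, Measurable (fun ω : Ω => g • ω))
    (R R' : CF (Ω := Ω) b L) (hR : star R = R) (hR' : star R' = R') (h1 : R * R' = 1)
    (h2 : R' * R = 1) : ∃ U : CF (Ω := Ω) b L, star U * U = 1 ∧ NN b L (R' * U) ∧
      NN b L (star U * R) := by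
  obtain ⟨ξ, hξm, hξ1, hξ2, hξ3⟩ := exists_xi b L R R' hR hR' h1 h2
  obtain ⟨ζ, hζ⟩ : ∃ ζ : Ω → H, ∀ ω, ζ ω = ev b L ω R (ξ ω) := ⟨_, fun _ => rfl⟩
  have hRin : ∀ ω x y, ⟪x, ev b L ω R y⟫_ℂ = ⟪ev b L ω R x, y⟫_ℂ := by
    intro ω x y
    have h3 : star (ev b L ω R) = ev b L ω R := by rw [← map_star, hR]
    rw [← ContinuousLinearMap.adjoint_inner_left, ← ContinuousLinearMap.star_eq_adjoint, h3]
  have hR'R : ∀ ω x, ev b L ω R' (ev b L ω R x) = x := by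
    intro ω x
    have h3 : ev b L ω R' * ev b L ω R = 1 := by rw [← map_mul, h2, map_one]
    exact congrArg (fun T : H →L[ℂ] H => T x) h3
  have hζ0 : ∀ ω, ζ ω ≠ 0 := by
    intro ω h
    have h3 := hR'R ω (ξ ω)
    rw [← hζ, h, map_zero] at h3
    have h4 := hξ2 ω
    rw [← h3, inner_zero_right] at h4
    exact zero_ne_one h4
  have hζm : ∀ x, Measurable (fun ω => ⟪x, ζ ω⟫_ℂ) := by
    intro x
    simp_rw [hζ]
    exact (WM.ev b L R).vec b hξm x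
  have hζn : Measurable (fun ω => ‖ζ ω‖) := meas_norm b hζm
  have hort : ∀ (ω : Ω) (k l : G), k < l →
      ⟪(L l : H →L[ℂ] H) (ζ (l⁻¹ • ω)), (L k : H →L[ℂ] H) (ζ (k⁻¹ • ω))⟫_ℂ = 0 := by
    intro ω k l hkl
    rw [hζ, hζ, ← ev_L, ← ev_L, ← hRin]
    have h3 : ev b L ω R (ev b L ω R ((L k : H →L[ℂ] H) (ξ (k⁻¹ • ω))))
        = (L k : H →L[ℂ] H) (ev b L (k⁻¹ • ω) (R * R) (ξ (k⁻¹ • ω))) := by
      rw [← ev_L, map_mul]
      rfl
    rw [h3, inner_L_L b L hL]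
    refine hξ3 _ _ (L_Ioi b L hL ?_ (hξ1 _))
    have := mul_lt_mul_right hkl k⁻¹
    simpa using this
  obtain ⟨η, hη⟩ : ∃ η : Ω → H, ∀ ω, η ω = ((‖ζ ω‖⁻¹ : ℝ) : ℂ) • ζ ω := ⟨_, fun _ => rfl⟩
  have hηm : ∀ x, Measurable (fun ω => ⟪x, η ω⟫_ℂ) := by
    intro x
    simp_rw [hη, inner_smul_right]
    exact (Complex.measurable_ofReal.comp hζn.inv).mul (hζm x)
  have hηn : ∀ ω, ‖η ω‖ = 1 := by
    intro ω
    rw [hη, norm_smul, Complex.norm_real, norm_inv, norm_norm,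
      inv_mul_cancel₀ (norm_ne_zero_iff.2 (hζ0 ω))]
  have hLn : ∀ (k : G) (x : H), ‖(L k : H →L[ℂ] H) x‖ = ‖x‖ := by
    intro k x
    have h3 : ⟪(L k : H →L[ℂ] H) x, (L k : H →L[ℂ] H) x⟫_ℂ = ⟪x, x⟫_ℂ := by
      rw [inner_L_L b L hL, inv_mul_cancel, L_one b L hL]
    rw [inner_self_eq_norm_sq_to_K, inner_self_eq_norm_sq_to_K] at h3
    have h4 : ‖(L k : H →L[ℂ] H) x‖ ^ 2 = ‖x‖ ^ 2 := by exact_mod_cast h3
    exact (sq_eq_sq₀ (norm_nonneg _) (norm_nonneg _)).1 h4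
  have ho : ∀ ω, Orthonormal ℂ (fun k : G => (L k : H →L[ℂ] H) (η (k⁻¹ • ω))) := by
    intro ω
    refine ⟨fun k => ?_, fun k l hkl => ?_⟩
    · rw [hLn, hηn]
    · show ⟪(L k : H →L[ℂ] H) (η (k⁻¹ • ω)), (L l : H →L[ℂ] H) (η (l⁻¹ • ω))⟫_ℂ = 0
      rw [hη, hη, map_smul, map_smul, inner_smul_left, inner_smul_right]
      rcases lt_or_gt_of_ne hkl with h | h
      · rw [inner_eq_zero_symm.1 (hort ω k l h), mul_zero, mul_zero]
      · rw [hort ω l k h, mul_zero, mul_zero]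
  obtain ⟨U, hU1, hU2⟩ := exists_field b L hL hmeas η hηm ho
  have hU1' : ∀ ω, ev b L ω U (b 1) = η ω := by
    intro ω
    rw [hU1, inv_one, one_smul, L_one b L hL]
  refine ⟨U, hU2, ?_, ?_⟩
  · intro ω
    rw [map_mul]
    show ev b L ω R' (ev b L ω U (b 1)) ∈ _
    rw [hU1', hη, map_smul, hζ, hR'R]
    exact Submodule.smul_mem _ _ (hξ1 ω)
  · intro ω g hg
    rw [Set.mem_Ici, not_le] at hg
    rw [map_mul, map_star]
    show ⟪b g, star (ev b L ω U) (ev b L ω R (b 1))⟫_ℂ = 0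
    rw [ContinuousLinearMap.star_eq_adjoint, ContinuousLinearMap.adjoint_inner_right, hU1]
    have h3 : ev b L ω R (b 1) = (L g : H →L[ℂ] H) (ev b L (g⁻¹ • ω) R (b g⁻¹)) := by
      rw [← ev_L, hL, mul_inv_cancel]
    rw [h3, inner_L_L b L hL, inv_mul_cancel, L_one b L hL, hη, inner_smul_left, hζ, ← hRin,
      ← inner_conj_symm]
    have h4 : ⟪ev b L (g⁻¹ • ω) R (ev b L (g⁻¹ • ω) R (b g⁻¹)), ξ (g⁻¹ • ω)⟫_ℂ = 0 := by
      have h5 : (b g⁻¹ : H) ∈ Kg b (Set.Ioi (1 : G)) := b_mem_Kg b (by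
        rw [Set.mem_Ioi]
        have := mul_lt_mul_right hg g⁻¹
        simpa using this)
      have h6 := hξ3 (g⁻¹ • ω) _ h5
      rw [← hRin, ← hRin]
      have h7 : ev b L (g⁻¹ • ω) (R * R) (ξ (g⁻¹ • ω))
          = ev b L (g⁻¹ • ω) R (ev b L (g⁻¹ • ω) R (ξ (g⁻¹ • ω))) := by
        rw [map_mul]; rfl
      rw [← h7]
      exact h6
    rw [h4]
    simp

end
end Pool.Agent.TH315.LO
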