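import Pool.Agent.TH315.LO.Cov
import Pool.Agent.W611.RO.Exist

/-!
# Operators on the space of square summable functions on a left-ordered group
-/

set_option autoImplicit false
set_option linter.unusedSectionVars false
open scoped ComplexConjugate InnerProductSpace Topology BoundedContinuousFunction
open Filter MeasureTheory

namespace Pool.Agent.TH315.LO
open Pool.Agent.H712R5.BO Pool.Agent.W611.RO Pool.Agent.TH322.AC

section
variable {G Ω H : Type} [Group G] [Countable G] [MeasurableSpace Ω] [MulAction G Ω]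
  [NormedAddCommGroup H] [InnerProductSpace ℂ H] [CompleteSpace H]

theorem exists_reg (b : HilbertBasis G ℂ H) : ∃ L : G → unitary (H →L[ℂ] H), Reg b L := by
  have hUNI : P_UNI := Pool.Agent.W515.RO.t_UNI
  have hL' : ∀ h : G, ∃ U : unitary (H →L[ℂ] H), ∀ k, (U : H →L[ℂ] H) (b k) = b (h * k) := by
    intro h
    obtain ⟨U, hU⟩ := (hUNI G H b (Equiv.mulLeft h) (fun _ => 1)).1 (by simp)
    refine ⟨U, fun k => ?_⟩
    rw [hU k, one_smul]
    rfl
  choose L hLk using hL'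
  exact ⟨L, hLk⟩

/-- bounded weakly measurable covariant fields as elements of the algebra `CF` -/
theorem exists_CF (b : HilbertBasis G ℂ H) (L : G → unitary (H →L[ℂ] H))
    (T : Ω → (H →L[ℂ] H)) (C : ℝ) (hC : ∀ ω, ‖T ω‖ ≤ C)
    (hm : ∀ (i : G) (y : H), Measurable fun ω => ⟪b i, T ω y⟫_ℂ)
    (hcov : ∀ (g : G) (ω : Ω), T (g • ω) * (L g : H →L[ℂ] H) = (L g : H →L[ℂ] H) * T ω) :
    ∃ S : CF (Ω := Ω) b L, ∀ ω, ev b L ω S = T ω := by
  have hmem : BoundedContinuousFunction.ofNormedAddCommGroupDiscrete (α := Dis Ω) T C hC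
      ∈ CF (Ω := Ω) b L := by
    rw [mem_CF]
    refine ⟨fun x y => ?_, hcov⟩
    show Measurable (fun ω : Ω => ⟪x, T ω y⟫_ℂ)
    have h1 : ∀ ω, ⟪x, T ω y⟫_ℂ = ∑' i : G, ⟪x, b i⟫_ℂ * ⟪b i, T ω y⟫_ℂ := fun ω =>
      (b.tsum_inner_mul_inner x (T ω y)).symm
    simp_rw [h1]
    exact Measurable.tsum fun i => (hm i y).const_mul _
  exact ⟨⟨_, hmem⟩, fun ω => rfl⟩

theorem inner_fam {b : HilbertBasis G ℂ H} {L : G → unitary (H →L[ℂ] H)} (F : Finset G)
    (a : G → Ω → ℂ) (X : G → CF (Ω := Ω) b L)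
    (hX : ∀ g ∈ F, IsW b g (a g) (fun ω => ev b L ω (X g))) (ω : Ω) (h : G) :
    ⟪b h, ev b L ω (∑ g ∈ F, X g) (b 1)⟫_ℂ = ∑ g ∈ F, a g (g • ω) * ⟪b h, b g⁻¹⟫_ℂ := by
  rw [map_sum, _root_.sum_apply, inner_sum]
  refine Finset.sum_congr rfl fun g hg => ?_
  have h1 : ev b L ω (X g) (b 1) = a g ((g * 1⁻¹) • ω) • b (1 * g⁻¹) := hX g hg ω 1
  rw [h1, inner_smul_right, inv_one, mul_one, one_mul]

end

section
variable {G Ω H : Type} [Group G] [Countable G] [MeasurableSpace Ω] [MulAction G Ω]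
  [NormedAddCommGroup H] [InnerProductSpace ℂ H] [CompleteSpace H]
  {P : Measure Ω} {b : HilbertBasis G ℂ H} {L : G → unitary (H →L[ℂ] H)}
  [LinearOrder G] [MulLeftStrictMono G]

theorem fam_lead (F : Finset G) (a : G → Ω → ℂ) (X : G → CF (Ω := Ω) b L)
    (hX : ∀ g ∈ F, IsW b g (a g) (fun ω => ev b L ω (X g))) (g₁ : G) (hg₁ : g₁ ∈ F)
    (hmin : ∀ g ∈ F, g₁⁻¹ ≤ g⁻¹) :
    Ld b L (∑ g ∈ F, X g) g₁⁻¹ (fun ω => a g₁ (g₁ • ω)) := by
  classical
  intro ω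
  constructor
  · intro h hh
    rw [Set.mem_Ici, not_le] at hh
    rw [inner_fam F a X hX]
    refine Finset.sum_eq_zero fun g hg => ?_
    rw [orthonormal_iff_ite.1 b.orthonormal, if_neg, mul_zero]
    rintro rfl
    exact absurd hh (not_lt.2 (hmin g hg))
  · rw [inner_fam F a X hX, Finset.sum_eq_single g₁]
    · rw [orthonormal_iff_ite.1 b.orthonormal, if_pos rfl, mul_one]
    · intro g _ hne
      rw [orthonormal_iff_ite.1 b.orthonormal, if_neg, mul_zero]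
      intro h
      exact hne (inv_injective h).symm
    · intro h
      exact absurd hg₁ h

theorem fam_hyp [IsProbabilityMeasure P] (hL : Reg b L) (herg : Erg G P)
    (F : Finset G) (a : G → Ω → ℂ) (X : G → CF (Ω := Ω) b L)
    (hX : ∀ g ∈ F, IsW b g (a g) (fun ω => ev b L ω (X g))) (g₁ : G) (hg₁ : g₁ ∈ F)
    (hmin : ∀ g ∈ F, g₁⁻¹ ≤ g⁻¹)
    (hc : (g₁ ≠ 1 ∧ (∀ᵐ ω ∂P, a g₁ ω ≠ 0) ∧ Integrable (fun ω => Real.log ‖a g₁ ω‖) P) ∨
      (g₁ = 1 ∧ ¬ ∃ c : ℂ, ∀ᵐ ω ∂P, a g₁ ω = c)) :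
    ∀ᵐ ω ∂P, HasHyp (ev b L ω (∑ g ∈ F, X g)) := by
  refine cov_hyp (P := P) hL herg _ g₁⁻¹ _ (fam_lead F a X hX g₁ hg₁ hmin) ?_
  rcases hc with ⟨h1, h2, h3⟩ | ⟨rfl, h2⟩
  · left
    exact ⟨inv_ne_one.2 h1, (herg.mp g₁).quasiMeasurePreserving.ae h2,
      (herg.mp g₁).integrable_comp_of_integrable h3⟩
  · right
    refine ⟨inv_one, ?_⟩
    rintro ⟨c, hc⟩
    exact h2 ⟨c, by simpa using hc⟩

end

/-- the reversed order -/
@[reducible] def rev (G : Type) [LinearOrder G] : LinearOrder G :=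
  inferInstanceAs (LinearOrder Gᵒᵈ)

theorem rev_mul (G : Type) [Group G] [LinearOrder G] [h : MulLeftStrictMono G] :
    @MulLeftStrictMono G _ (rev G).toLT := by
  refine @CovariantClass.mk G G (· * ·) (rev G).toLT.lt ?_
  intro c x y hxy
  have h1 : y < x := hxy
  have h2 : c * y < c * x := mul_lt_mul_right h1 c
  exact h2

/-- finite sums with random coefficients -/
theorem t_SUM (G Ω H : Type) [Group G] [Countable G] [LinearOrder G] [MulLeftStrictMono G]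
    [MeasurableSpace Ω] [MulAction G Ω] [NormedAddCommGroup H] [InnerProductSpace ℂ H]
    [CompleteSpace H] (P : Measure Ω) [IsProbabilityMeasure P] (b : HilbertBasis G ℂ H)
    (herg : Erg G P) (F : Finset G) (a : G → Ω → ℂ) (ham : ∀ g ∈ F, Measurable (a g))
    (B : ℝ) (haB : ∀ g ∈ F, ∀ ω, ‖a g ω‖ ≤ B)
    (ha0 : ∀ g ∈ F, g ≠ 1 → ∀ᵐ ω ∂P, a g ω ≠ 0)
    (hai : ∀ g ∈ F, g ≠ 1 → Integrable (fun ω => Real.log ‖a g ω‖) P)
    (T : Ω → (H →L[ℂ] H))
    (hT : ∀ (ω : Ω) (k : G), T ω (b k) = ∑ g ∈ F, a g ((g * k⁻¹) • ω) • b (k * g⁻¹)) :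
    (∃ c : ℂ, ∀ᵐ ω ∂P, T ω = c • 1) ∨ ∀ᵐ ω ∂P, HasHyp (T ω) := by
  classical
  have hUNI : P_UNI := Pool.Agent.W515.RO.t_UNI
  obtain ⟨L, hL⟩ := exists_reg b
  have hX' : ∀ g : G, ∃ X : CF (Ω := Ω) b L, g ∈ F → IsW b g (a g) (fun ω => ev b L ω X) := by
    intro g
    by_cases hg : g ∈ F
    · obtain ⟨X, hX⟩ := Pool.Agent.W721.RO.t_WRD hUNI G Ω H b L hL
        (fun h => (herg.mp h).measurable) g (a g) B (ham g hg) (haB g hg)
      exact ⟨X, fun _ => hX⟩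
    · exact ⟨0, fun h => absurd h hg⟩
  choose X hX using hX'
  have hTS : ∀ ω, T ω = ev b L ω (∑ g ∈ F, X g) := by
    intro ω
    refine Pool.Agent.W253.RO.clm_ext b _ _ fun k => ?_
    rw [hT, map_sum, _root_.sum_apply]
    exact Finset.sum_congr rfl fun g hg => (hX g hg ω k).symm
  rcases F.eq_empty_or_nonempty with rfl | hF
  · left
    refine ⟨0, Eventually.of_forall fun ω => ?_⟩
    rw [hTS, Finset.sum_empty, map_zero, zero_smul]
  obtain ⟨g₁, hg₁, hmin₁⟩ := Finset.exists_min_image F (fun g => g⁻¹) hF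
  obtain ⟨g₂, hg₂, hmax₂⟩ := Finset.exists_max_image F (fun g => g⁻¹) hF
  by_cases h1 : g₁ = 1
  · by_cases h2 : g₂ = 1
    · -- only the diagonal
      subst h1
      have hF1 : F = {1} := by
        refine Finset.eq_singleton_iff_unique_mem.2 ⟨hg₁, fun g hg => ?_⟩
        have h3 := hmin₁ g hg
        have h4 := hmax₂ g hg
        rw [h2] at h4
        exact inv_injective (le_antisymm h4 h3)
      by_cases hc : ∃ c : ℂ, ∀ᵐ ω ∂P, a 1 ω = c
      · left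
        obtain ⟨c, hc⟩ := hc
        refine ⟨c, ?_⟩
        have h5 : ∀ᵐ ω ∂P, ∀ k : G, a 1 (k⁻¹ • ω) = c :=
          ae_all_iff.2 fun k => (herg.mp k⁻¹).quasiMeasurePreserving.ae hc
        filter_upwards [h5] with ω hω
        refine Pool.Agent.W253.RO.clm_ext b _ _ fun k => ?_
        rw [hT, hF1, Finset.sum_singleton, one_mul, inv_one, mul_one, hω k]
        rfl
      · right
        have := fam_hyp (P := P) hL herg F a X hX 1 hg₁ hmin₁ (Or.inr ⟨rfl, hc⟩)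
        filter_upwards [this] with ω hω
        rw [hTS]
        exact hω
    · right
      have := @fam_hyp G Ω H _ _ _ _ _ _ _ P b L (rev G) (rev_mul G) _ hL herg F a X hX g₂ hg₂
        (fun g hg => hmax₂ g hg) (Or.inl ⟨h2, ha0 g₂ hg₂ h2, hai g₂ hg₂ h2⟩)
      filter_upwards [this] with ω hω
      rw [hTS]
      exact hω
  · right
    have := fam_hyp (P := P) hL herg F a X hX g₁ hg₁ hmin₁
      (Or.inl ⟨h1, ha0 g₁ hg₁ h1, hai g₁ hg₁ h1⟩)
    filter_upwards [this] with ω hω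
    rw [hTS]
    exact hω

section
variable {G Ω : Type} [Group G] [Countable G] [LinearOrder G] [MulLeftStrictMono G]
    [MeasurableSpace Ω] [MulAction G Ω] (P : Measure Ω) [IsProbabilityMeasure P]

/-- covariant fields in coordinates -/
theorem t_COV (herg : Erg G P) (T : Ω → (L2 G →L[ℂ] L2 G)) (C : ℝ) (hC : ∀ ω, ‖T ω‖ ≤ C)
    (hTm : ∀ (f : L2 G) (i : G), Measurable fun ω => (T ω f : G → ℂ) i)
    (hcov : ∀ (g : G) (ω : Ω) (f f' : L2 G),
      (∀ i, (f' : G → ℂ) i = (f : G → ℂ) (g⁻¹ * i)) →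
      ∀ i, (T (g • ω) f' : G → ℂ) i = (T ω f : G → ℂ) (g⁻¹ * i)) (m : G)
    (hlow : ∀ ω, ∀ g, g < m → (T ω (stb G 1) : G → ℂ) g = 0)
    (hf : (m ≠ 1 ∧ (∀ᵐ ω ∂P, (T ω (stb G 1) : G → ℂ) m ≠ 0) ∧
        Integrable (fun ω => Real.log ‖(T ω (stb G 1) : G → ℂ) m‖) P) ∨
      (m = 1 ∧ ¬ ∃ c : ℂ, ∀ᵐ ω ∂P, (T ω (stb G 1) : G → ℂ) m = c)) :
    ∀ᵐ ω ∂P, HasHyp (T ω) := by
  obtain ⟨L, hL⟩ := exists_reg (stb G)
  have hLf : ∀ (g : G) (f : L2 G) (i : G),
      (((L g : L2 G →L[ℂ] L2 G) f : L2 G) : G → ℂ) i = (f : G → ℂ) (g⁻¹ * i) := by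
    intro g f i
    rw [← stb_coord, inner_L (stb G) L hL, stb_coord]
  obtain ⟨S, hS⟩ := exists_CF (stb G) L T C hC (fun i y => by
      simp_rw [stb_coord]
      exact hTm y i) (fun g ω => by
      refine ContinuousLinearMap.ext fun f => lp.ext (funext fun i => ?_)
      show (T (g • ω) ((L g : L2 G →L[ℂ] L2 G) f) : G → ℂ) i
        = (((L g : L2 G →L[ℂ] L2 G) (T ω f) : L2 G) : G → ℂ) i
      rw [hLf]
      exact hcov g ω f _ (hLf g f) i)
  have h1 := cov_hyp (P := P) hL herg S m (fun ω => (T ω (stb G 1) : G → ℂ) m) (by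
    intro ω
    rw [hS]
    refine ⟨fun g hg => ?_, ?_⟩
    · rw [Set.mem_Ici, not_le] at hg
      rw [stb_coord]
      exact hlow ω g hg
    · rw [stb_coord]) hf
  filter_upwards [h1] with ω hω
  rw [hS] at hω
  exact hω

/-- finite sums in coordinates -/
theorem t_FIN (herg : Erg G P) (F : Finset G) (a : G → Ω → ℂ) (ham : ∀ g ∈ F, Measurable (a g))
    (B : ℝ) (haB : ∀ g ∈ F, ∀ ω, ‖a g ω‖ ≤ B)
    (ha0 : ∀ g ∈ F, g ≠ 1 → ∀ᵐ ω ∂P, a g ω ≠ 0)
    (hai : ∀ g ∈ F, g ≠ 1 → Integrable (fun ω => Real.log ‖a g ω‖) P)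
    (T : Ω → (L2 G →L[ℂ] L2 G))
    (hT : ∀ (ω : Ω) (f : L2 G) (i : G), (T ω f : G → ℂ) i
      = ∑ g ∈ F, a g (i⁻¹ • ω) * (f : G → ℂ) (i * g)) :
    (∃ c : ℂ, ∀ᵐ ω ∂P, T ω = c • 1) ∨ ∀ᵐ ω ∂P, HasHyp (T ω) := by
  classical
  refine t_SUM G Ω (L2 G) P (stb G) herg F a ham B haB ha0 hai T ?_
  intro ω k
  apply lp.ext
  funext i
  rw [hT]
  have h1 : ((∑ g ∈ F, a g ((g * k⁻¹) • ω) • stb G (k * g⁻¹) : L2 G) : G → ℂ) i
      = ∑ g ∈ F, crd i (a g ((g * k⁻¹) • ω) • stb G (k * g⁻¹)) := by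
    rw [← crd_apply, map_sum]
  rw [h1]
  refine Finset.sum_congr rfl fun g hg => ?_
  rw [map_smul, crd_apply, stb_apply, stb_apply, smul_eq_mul]
  by_cases h : i * g = k
  · have h' : i = k * g⁻¹ := by rw [← h]; group
    have e2 : g * k⁻¹ = i⁻¹ := by rw [h']; group
    rw [if_pos h', if_pos h, e2]
  · have h' : i ≠ k * g⁻¹ := by
      rintro rfl
      apply h
      group
    rw [if_neg h', if_neg h]
    simp

/-- existence of the finite sums -/
theorem exists_fin (F : Finset G) (a : G → Ω → ℂ) (B : ℝ) (haB : ∀ g ∈ F, ∀ ω, ‖a g ω‖ ≤ B) :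
    ∃ T : Ω → (L2 G →L[ℂ] L2 G), ∀ (ω : Ω) (f : L2 G) (i : G), (T ω f : G → ℂ) i
      = ∑ g ∈ F, a g (i⁻¹ • ω) * (f : G → ℂ) (i * g) := by
  classical
  have hUNI : P_UNI := Pool.Agent.W515.RO.t_UNI
  have h1 : ∀ (g : G) (ω : Ω), ∃ X : L2 G →L[ℂ] L2 G, g ∈ F →
      ∀ (f : L2 G) (i : G), (X f : G → ℂ) i = a g (i⁻¹ • ω) * (f : G → ℂ) (i * g) := by
    intro g ω
    by_cases hg : g ∈ F
    · obtain ⟨X, -, hX⟩ := exists_one hUNI g (fun i => a g (i⁻¹ • ω)) |B| (abs_nonneg B)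
        (fun i => (haB g hg _).trans (le_abs_self B))
      exact ⟨X, fun _ => hX⟩
    · exact ⟨0, fun h => absurd h hg⟩
  choose X hX using h1
  refine ⟨fun ω => ∑ g ∈ F, X g ω, fun ω f i => ?_⟩
  rw [_root_.sum_apply, ← crd_apply, map_sum]
  refine Finset.sum_congr rfl fun g hg => ?_
  rw [crd_apply, hX g ω hg]

end

/-- elements of the complex group ring -/
theorem t_RING (G : Type) [Group G] [Countable G] [LinearOrder G] [MulLeftStrictMono G]
    (F : Finset G) (a : G → ℂ) (T : L2 G →L[ℂ] L2 G)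
    (hT : ∀ (f : L2 G) (i : G), (T f : G → ℂ) i = ∑ g ∈ F, a g * (f : G → ℂ) (i * g)) :
    (∃ c : ℂ, T = c • 1) ∨ HasHyp T := by
  classical
  have herg : Erg G (Measure.dirac PUnit.unit : Measure PUnit.{1}) := by
    refine ⟨fun g => ?_, ?_⟩
    · have h1 : (fun ω : PUnit.{1} => g • ω) = id := by
        funext ω
        exact Subsingleton.elim _ _
      rw [h1]
      exact MeasurePreserving.id _
    · intro B _ _
      rcases B.eq_empty_or_nonempty with rfl | ⟨x, hx⟩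
      · left; exact measure_empty
      · right
        have h1 : Bᶜ = ∅ := by
          ext y
          simp only [Set.mem_compl_iff, Set.mem_empty_iff_false, iff_false, not_not]
          rwa [Subsingleton.elim y x]
        rw [h1, measure_empty]
  set F' : Finset G := F.filter fun g => a g ≠ 0 with hF'
  have h := t_FIN (Measure.dirac PUnit.unit : Measure PUnit.{1}) herg F' (fun g _ => a g)
    (fun g _ => measurable_const) (∑ g ∈ F, ‖a g‖) (fun g hg _ =>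
      Finset.single_le_sum (f := fun g => ‖a g‖) (fun _ _ => norm_nonneg _)
        (Finset.mem_filter.1 hg).1)
    (fun g hg _ => Eventually.of_forall fun _ => (Finset.mem_filter.1 hg).2)
    (fun g _ _ => integrable_const _) (fun _ => T) (by
      intro _ f i
      rw [hT, hF', Finset.sum_filter]
      refine Finset.sum_congr rfl fun g _ => ?_
      by_cases hg : a g = 0
      · rw [if_neg (not_not.2 hg), hg, zero_mul]
      · rw [if_pos hg])
  rcases h with ⟨c, hc⟩ | h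
  · left
    refine ⟨c, ?_⟩
    rw [ae_dirac_iff (by trivial)] at hc
    exact hc
  · right
    rw [ae_dirac_iff (by trivial)] at h
    exact h

end Pool.Agent.TH315.LO
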