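import Pool.Agent.TH315.LO.Basic

/-!
# The innovation vectors of an invertible positive field
-/

set_option autoImplicit false
set_option linter.unusedSectionVars false
open scoped ComplexConjugate InnerProductSpace Topology BoundedContinuousFunction
open Filter MeasureTheory

namespace Pool.Agent.TH315.LO
open Pool.Agent.H712R5.BO Pool.Agent.W611.RO

theorem contr {B : Type} [CStarAlgebra B] [Nontrivial B] (R R' P : B) (hR : star R = R)
    (hR' : star R' = R') (h1 : R * R' = 1) (h2 : R' * R = 1) (hP : star P = P) (hPP : P * P = P)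
    (M : ℝ) (hM : ‖R‖ ^ 2 + 1 ≤ M) :
    ‖(1 : B) - M⁻¹ • (P * (R * R) * P + (1 - P))‖ < 1 := by
  let := CStarAlgebra.spectralOrder B
  have := CStarAlgebra.spectralOrderedRing B
  have hM1 : 1 ≤ M := le_trans (by nlinarith [sq_nonneg ‖R‖]) hM
  have hM0 : 0 < M := by linarith
  set C : B := P * (R * R) * P + (1 - P) with hC
  have hq : (1 - P) = star (1 - P) * (1 - P) := by
    rw [star_sub, star_one, hP, sub_mul, one_mul, mul_sub, mul_one, hPP, sub_self, sub_zero]
  have hq0 : (0 : B) ≤ 1 - P := by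
    rw [hq]; exact star_mul_self_nonneg _
  have hp : P = star P * P := by rw [hP, hPP]
  have hp0 : (0 : B) ≤ P := by
    rw [hp]; exact star_mul_self_nonneg _
  have hp1 : P ≤ 1 := sub_nonneg.1 hq0
  -- upper bound
  have hRR : R * R ≤ algebraMap ℝ B (‖R‖ ^ 2) := by
    have h3 : IsSelfAdjoint (R * R) := by
      rw [IsSelfAdjoint, star_mul, hR]
    have h4 := h3.le_algebraMap_norm_self
    refine h4.trans (algebraMap_mono B ?_)
    rw [sq]
    exact norm_mul_le _ _
  have hup : C ≤ algebraMap ℝ B M := by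
    have h3 : P * (R * R) * P ≤ P * algebraMap ℝ B (‖R‖ ^ 2) * P := by
      have := star_left_conjugate_le_conjugate hRR P
      rwa [hP] at this
    have h4 : P * algebraMap ℝ B (‖R‖ ^ 2) * P ≤ algebraMap ℝ B (‖R‖ ^ 2) := by
      rw [Algebra.algebraMap_eq_smul_one, mul_smul_comm, mul_one, smul_mul_assoc, hPP]
      exact smul_le_smul_of_nonneg_left hp1 (sq_nonneg _)
    have h5 : (1 : B) - P ≤ 1 := sub_le_self _ hp0
    calc C ≤ algebraMap ℝ B (‖R‖ ^ 2) + 1 := add_le_add (h3.trans h4) h5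
      _ = algebraMap ℝ B (‖R‖ ^ 2 + 1) := by rw [map_add, map_one]
      _ ≤ algebraMap ℝ B M := algebraMap_mono B hM
  -- lower bound
  set K : ℝ := ‖R'‖ ^ 2 + 1 with hK
  have hK0 : 1 ≤ K := by rw [hK]; nlinarith [sq_nonneg ‖R'‖]
  have hR'R' : R' * R' ≤ algebraMap ℝ B K := by
    have h3 : IsSelfAdjoint (R' * R') := by
      rw [IsSelfAdjoint, star_mul, hR']
    have h4 := h3.le_algebraMap_norm_self
    refine h4.trans (algebraMap_mono B ?_)
    have := norm_mul_le R' R'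
    rw [hK]
    nlinarith
  have h1le : (1 : B) ≤ K • (R * R) := by
    have h3 := star_left_conjugate_le_conjugate hR'R' R
    rw [hR] at h3
    have h4 : R * (R' * R') * R = 1 := by
      rw [← mul_assoc, h1, one_mul, h2]
    rw [h4, Algebra.algebraMap_eq_smul_one, mul_smul_comm, mul_one, smul_mul_assoc] at h3
    exact h3
  have hlow : algebraMap ℝ B K⁻¹ ≤ C := by
    have h3 : algebraMap ℝ B K⁻¹ ≤ R * R := by
      have h4 := smul_le_smul_of_nonneg_left h1le (inv_nonneg.2 (by linarith : (0:ℝ) ≤ K))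
      rw [smul_smul, inv_mul_cancel₀ (by linarith), one_smul] at h4
      rwa [Algebra.algebraMap_eq_smul_one]
    have h5 : K⁻¹ • P ≤ P * (R * R) * P := by
      have h6 := star_left_conjugate_le_conjugate h3 P
      rw [hP, Algebra.algebraMap_eq_smul_one, mul_smul_comm, mul_one, smul_mul_assoc, hPP] at h6
      exact h6
    have h7 : K⁻¹ • (1 - P) ≤ 1 - P := by
      have : K⁻¹ • (1 - P) ≤ (1 : ℝ) • (1 - P) :=
        smul_le_smul_of_nonneg_right (inv_le_one_of_one_le₀ hK0) hq0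
      rwa [one_smul] at this
    calc algebraMap ℝ B K⁻¹ = K⁻¹ • P + K⁻¹ • (1 - P) := by
          rw [← smul_add, add_sub_cancel, Algebra.algebraMap_eq_smul_one]
      _ ≤ C := add_le_add h5 h7
  -- conclusion
  have hCM : M⁻¹ • C ≤ 1 := by
    have := smul_le_smul_of_nonneg_left hup (inv_nonneg.2 hM0.le)
    rwa [Algebra.algebraMap_eq_smul_one, smul_smul, inv_mul_cancel₀ hM0.ne', one_smul] at this
  have h0 : (0 : B) ≤ 1 - M⁻¹ • C := sub_nonneg.2 hCM
  have hr : M⁻¹ * K⁻¹ ≤ 1 := by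
    have h8 := inv_le_one_of_one_le₀ hM1
    have h9 := inv_le_one_of_one_le₀ hK0
    have h10 : 0 ≤ K⁻¹ := inv_nonneg.2 (by linarith)
    nlinarith
  have hle : 1 - M⁻¹ • C ≤ algebraMap ℝ B (1 - M⁻¹ * K⁻¹) := by
    rw [map_sub, map_one]
    refine sub_le_sub_left ?_ _
    have := smul_le_smul_of_nonneg_left hlow (inv_nonneg.2 hM0.le)
    rwa [Algebra.algebraMap_eq_smul_one, smul_smul, ← Algebra.algebraMap_eq_smul_one] at this
  have hn := (CStarAlgebra.norm_le_iff_le_algebraMap (1 - M⁻¹ • C)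
    (by linarith : (0:ℝ) ≤ 1 - M⁻¹ * K⁻¹) h0).2 hle
  have hpos : 0 < M⁻¹ * K⁻¹ := mul_pos (inv_pos.2 hM0) (inv_pos.2 (by linarith))
  linarith

section
variable {G Ω H : Type} [Group G] [Countable G] [MeasurableSpace Ω] [MulAction G Ω]
  [NormedAddCommGroup H] [InnerProductSpace ℂ H] [CompleteSpace H]

/-- weakly measurable fields -/
def WM (A : Ω → (H →L[ℂ] H)) : Prop := ∀ x y : H, Measurable (fun ω => ⟪x, A ω y⟫_ℂ)

theorem WM.mul (b : HilbertBasis G ℂ H) {A B : Ω → (H →L[ℂ] H)} (hA : WM A) (hB : WM B) :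
    WM (fun ω => A ω * B ω) := fun x y => meas_inner_mul b A B hA hB x y

theorem WM.const (A : H →L[ℂ] H) : WM (fun _ : Ω => A) := fun _ _ => measurable_const

theorem WM.add {A B : Ω → (H →L[ℂ] H)} (hA : WM A) (hB : WM B) :
    WM (fun ω => A ω + B ω) := by
  intro x y
  simp only [_root_.add_apply, inner_add_right]
  exact (hA x y).add (hB x y)

theorem WM.sub {A B : Ω → (H →L[ℂ] H)} (hA : WM A) (hB : WM B) :
    WM (fun ω => A ω - B ω) := by
  intro x y
  simp only [_root_.sub_apply, inner_sub_right]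
  exact (hA x y).sub (hB x y)

theorem WM.smul {A : Ω → (H →L[ℂ] H)} (c : ℝ) (hA : WM A) :
    WM (fun ω => c • A ω) := by
  intro x y
  have h : ∀ ω, ⟪x, (c • A ω) y⟫_ℂ = (c : ℂ) * ⟪x, A ω y⟫_ℂ := by
    intro ω
    rw [← Complex.coe_smul, _root_.smul_apply, inner_smul_right]
  simp_rw [h]
  exact (hA x y).const_mul _

theorem WM.pow (b : HilbertBasis G ℂ H) {A : Ω → (H →L[ℂ] H)} (hA : WM A) (n : ℕ) :
    WM (fun ω => A ω ^ n) := by
  induction n with
  | zero => simpa using WM.const (Ω := Ω) (1 : H →L[ℂ] H)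
  | succ n ih =>
    have := ih.mul b hA
    simpa [pow_succ] using this

theorem WM.geom (b : HilbertBasis G ℂ H) {D : Ω → (H →L[ℂ] H)} (hD : WM D)
    (hn : ∀ ω, ‖D ω‖ < 1) : WM (fun ω => ∑' n, D ω ^ n) := by
  intro x y
  have hs : ∀ ω, Summable fun n => D ω ^ n := fun ω =>
    summable_geometric_of_norm_lt_one (hn ω)
  have h : ∀ ω, ⟪x, (∑' n, D ω ^ n) y⟫_ℂ = ∑' n, ⟪x, (D ω ^ n) y⟫_ℂ := by
    intro ω
    have h1 := ((hs ω).hasSum.mapL (ContinuousLinearMap.apply ℂ H y)).mapL (innerSL ℂ x)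
    simp only [ContinuousLinearMap.apply_apply, innerSL_apply_apply] at h1
    exact h1.tsum_eq.symm
  simp_rw [h]
  exact Measurable.tsum fun n => hD.pow b n x y

theorem WM.ev (b : HilbertBasis G ℂ H) (L : G → unitary (H →L[ℂ] H)) (x : CF (Ω := Ω) b L) :
    WM (fun ω => ev b L ω x) := fun u v => ev_meas b L x u v

variable [LinearOrder G] [MulLeftStrictMono G]

/-- the innovation vectors: `ξ ∈ b 1 + Kg (Ioi 1)`, `A ξ ⟂ Kg (Ioi 1)` for `A = R²` -/
theorem exists_xi (b : HilbertBasis G ℂ H) (L : G → unitary (H →L[ℂ] H))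
    (R R' : CF (Ω := Ω) b L) (hR : star R = R) (hR' : star R' = R') (h1 : R * R' = 1)
    (h2 : R' * R = 1) : ∃ ξ : Ω → H, (∀ x, Measurable (fun ω => ⟪x, ξ ω⟫_ℂ)) ∧
      (∀ ω, ξ ω ∈ Kg b (Set.Ici (1 : G))) ∧ (∀ ω, ⟪b 1, ξ ω⟫_ℂ = 1) ∧
      ∀ ω, ∀ v ∈ Kg b (Set.Ioi (1 : G)), ⟪v, ev b L ω (R * R) (ξ ω)⟫_ℂ = 0 := by
  have hcl := isClosed_Kg b (Set.Ioi (1 : G))
  have : CompleteSpace (Kg b (Set.Ioi (1 : G))) := hcl.completeSpace_coe
  set K : Submodule ℂ H := Kg b (Set.Ioi (1 : G)) with hK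
  set P0 : H →L[ℂ] H := K.starProjection with hP0
  have hnt : Nontrivial (H →L[ℂ] H) := by
    refine ⟨1, 0, fun h => ?_⟩
    have h3 : b 1 = 0 := by
      have := congrArg (fun T : H →L[ℂ] H => T (b 1)) h
      simpa using this
    have h4 := b.orthonormal.1 1
    rw [h3, norm_zero] at h4
    exact zero_ne_one h4
  have hPs : star P0 = P0 := by
    rw [ContinuousLinearMap.star_eq_adjoint]
    symm
    rw [ContinuousLinearMap.eq_adjoint_iff]
    exact fun x y => K.inner_starProjection_left_eq_right x y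
  have hPP : P0 * P0 = P0 := K.isIdempotentElem_starProjection
  have hPmem : ∀ v, P0 v ∈ K := fun v => K.starProjection_apply_mem v
  have hPfix : ∀ v ∈ K, P0 v = v := fun v hv => Submodule.starProjection_eq_self_iff.2 hv
  have hPin : ∀ v ∈ K, ∀ x, ⟪v, P0 x⟫_ℂ = ⟪v, x⟫_ℂ := by
    intro v hv x
    have h3 : ⟪P0 v, x⟫_ℂ = ⟪v, P0 x⟫_ℂ := by
      rw [← ContinuousLinearMap.adjoint_inner_left, ← ContinuousLinearMap.star_eq_adjoint, hPs]
    rw [← h3, hPfix v hv]
  set M : ℝ := ‖R‖ ^ 2 + 1 with hM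
  have hM0 : 0 < M := by positivity
  set C : Ω → (H →L[ℂ] H) := fun ω => P0 * (ev b L ω R * ev b L ω R) * P0 + (1 - P0) with hC
  set D : Ω → (H →L[ℂ] H) := fun ω => 1 - M⁻¹ • C ω with hD
  have hDn : ∀ ω, ‖D ω‖ < 1 := by
    intro ω
    refine contr (ev b L ω R) (ev b L ω R') P0 ?_ ?_ ?_ ?_ hPs hPP M ?_
    · rw [← map_star, hR]
    · rw [← map_star, hR']
    · rw [← map_mul, h1, map_one]
    · rw [← map_mul, h2, map_one]
    · have h3 := ev_norm b L ω R
      have := pow_le_pow_left₀ (norm_nonneg _) h3 2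
      rw [hM]
      linarith
  have hCm : WM C := by
    refine WM.add ?_ (WM.const _)
    exact ((WM.const P0).mul b ((WM.ev b L R).mul b (WM.ev b L R))).mul b (WM.const P0)
  have hDm : WM D := (WM.const _).sub (hCm.smul _)
  have hNm := hDm.geom b hDn
  set N : Ω → (H →L[ℂ] H) := fun ω => ∑' n, D ω ^ n with hN
  have hCN : ∀ ω, C ω * (M⁻¹ • N ω) = 1 := by
    intro ω
    have h3 : (1 - D ω) * N ω = 1 := mul_neg_geom_series (D ω) (hDn ω)
    have h4 : C ω = M • (1 - D ω) := by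
      rw [hD]
      show C ω = M • (1 - (1 - M⁻¹ • C ω))
      rw [sub_sub_cancel, smul_smul, mul_inv_cancel₀ hM0.ne', one_smul]
    rw [h4, smul_mul_smul_comm, mul_inv_cancel₀ hM0.ne', one_smul, h3]
  obtain ⟨w, hw⟩ : ∃ w : Ω → H, ∀ ω, w ω = (M⁻¹ • N ω) (P0 (ev b L ω (R * R) (b 1))) :=
    ⟨_, fun _ => rfl⟩
  have hCw : ∀ ω, C ω (w ω) = P0 (ev b L ω (R * R) (b 1)) := by
    intro ω
    have h3 : (C ω * (M⁻¹ • N ω)) (P0 (ev b L ω (R * R) (b 1)))
        = P0 (ev b L ω (R * R) (b 1)) := by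
      rw [hCN ω]
      rfl
    rw [hw ω]
    exact h3
  have hwm : ∀ x, Measurable (fun ω => ⟪x, w ω⟫_ℂ) := by
    intro x
    have h3 : WM (fun ω => (M⁻¹ • N ω) * (P0 * ev b L ω (R * R))) :=
      (hNm.smul M⁻¹).mul b ((WM.const P0).mul b (WM.ev b L (R * R)))
    have h4 := h3 x (b 1)
    simp_rw [hw]
    exact h4
  clear_value N
  clear hNm hw
  have hPC : ∀ ω v, P0 (C ω v) = P0 (ev b L ω (R * R) (P0 v)) := by
    intro ω v
    have h3 : P0 * C ω = P0 * (ev b L ω (R * R)) * P0 := by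
      rw [hC]
      show P0 * (P0 * (ev b L ω R * ev b L ω R) * P0 + (1 - P0)) = _
      rw [mul_add, mul_sub, mul_one, hPP, sub_self, add_zero, map_mul]
      simp only [← mul_assoc, hPP]
    exact congrArg (fun T : H →L[ℂ] H => T v) h3
  have hwK : ∀ ω, P0 (w ω) = w ω := by
    intro ω
    have h3 : C ω (w ω) = P0 (C ω (w ω)) + (w ω - P0 (w ω)) := by
      have h4 : C ω = P0 * C ω + (1 - P0) := by
        rw [hC]
        show P0 * (ev b L ω R * ev b L ω R) * P0 + (1 - P0)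
          = P0 * (P0 * (ev b L ω R * ev b L ω R) * P0 + (1 - P0)) + (1 - P0)
        rw [mul_add, mul_sub, mul_one, hPP, sub_self, add_zero]
        simp only [← mul_assoc, hPP]
      have := congrArg (fun T : H →L[ℂ] H => T (w ω)) h4
      exact this
    have h4 : P0 (C ω (w ω)) = C ω (w ω) := by
      rw [hCw ω]
      exact congrArg (fun T : H →L[ℂ] H => T (ev b L ω (R * R) (b 1))) hPP
    rw [h4] at h3
    have h5 : w ω - P0 (w ω) = 0 := by
      have := h3
      rwa [left_eq_add] at this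
    exact (sub_eq_zero.1 h5).symm
  refine ⟨fun ω => b 1 - w ω, ?_, ?_, ?_, ?_⟩
  · intro x
    simp only [inner_sub_right]
    exact measurable_const.sub (hwm x)
  · intro ω
    refine Submodule.sub_mem _ (b_mem_Kg b (Set.mem_Ici.2 le_rfl)) ?_
    intro g hg
    have h3 : w ω ∈ K := by
      rw [← hwK ω]; exact hPmem _
    exact h3 g (fun h => hg (Set.Ioi_subset_Ici_self h))
  · intro ω
    have h3 : w ω ∈ K := by
      rw [← hwK ω]; exact hPmem _
    have h4 : ⟪b 1, w ω⟫_ℂ = 0 := h3 1 (by simp)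
    rw [inner_sub_right, h4, sub_zero, inner_self_eq_norm_sq_to_K, b.orthonormal.1 1]
    norm_num
  · intro ω v hv
    rw [map_sub, inner_sub_right, sub_eq_zero, ← hPin v hv, ← hPin v hv _, ← hCw ω]
    have h4 : P0 (C ω (w ω)) = C ω (w ω) := by
      rw [hCw ω]
      exact congrArg (fun T : H →L[ℂ] H => T (ev b L ω (R * R) (b 1))) hPP
    rw [← h4, hPC, hwK, hPin v hv, hPin v hv]

end
end Pool.Agent.TH315.LO
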