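import Pool.Agent.TH315.LO.Inv
import Pool.Agent.TH322.AC.Comb

/-!
# Isometric covariant fields from wandering vectors
-/

set_option autoImplicit false
set_option linter.unusedSectionVars false
open scoped ComplexConjugate InnerProductSpace Topology BoundedContinuousFunction
open Filter MeasureTheory

namespace Pool.Agent.TH315.LO
open Pool.Agent.H712R5.BO Pool.Agent.W611.RO Pool.Agent.TH322.AC

/-- the isometry sending a Hilbert basis to an orthonormal family -/
theorem exists_isom {G H : Type} [NormedAddCommGroup H] [InnerProductSpace ℂ H] [CompleteSpace H]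
    (b : HilbertBasis G ℂ H) (v : G → H) (hv : Orthonormal ℂ v) :
    ∃ U : H →L[ℂ] H, ‖U‖ ≤ 1 ∧ (∀ k, U (b k) = v k) ∧ star U * U = 1 := by
  classical
  set V : H →ₗᵢ[ℂ] H := (hv.orthogonalFamily.linearIsometry).comp
    (b.repr.toLinearIsometry) with hV
  refine ⟨V.toContinuousLinearMap, V.norm_toContinuousLinearMap_le, fun k => ?_, ?_⟩
  · show hv.orthogonalFamily.linearIsometry (b.repr (b k)) = v k
    rw [b.repr_self, OrthogonalFamily.linearIsometry_apply_single]
    simp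
  · refine ContinuousLinearMap.ext fun x => ?_
    refine ext_inner_left ℂ fun y => ?_
    rw [ContinuousLinearMap.star_eq_adjoint]
    show ⟪y, (ContinuousLinearMap.adjoint V.toContinuousLinearMap)
      (V.toContinuousLinearMap x)⟫_ℂ = ⟪y, x⟫_ℂ
    rw [ContinuousLinearMap.adjoint_inner_right]
    exact V.inner_map_map y x

section
variable {G Ω H : Type} [Group G] [Countable G] [MeasurableSpace Ω] [MulAction G Ω]
  [NormedAddCommGroup H] [InnerProductSpace ℂ H] [CompleteSpace H]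

theorem ev_ext (b : HilbertBasis G ℂ H) (L : G → unitary (H →L[ℂ] H)) {X Y : CF (Ω := Ω) b L}
    (h : ∀ ω, ev b L ω X = ev b L ω Y) : X = Y := by
  apply Subtype.ext
  apply BoundedContinuousFunction.ext
  intro ω
  exact h ω

theorem exists_field (b : HilbertBasis G ℂ H) (L : G → unitary (H →L[ℂ] H)) (hL : Reg b L)
    (hmeas : ∀ g : G, Measurable (fun ω : Ω => g • ω)) (η : Ω → H)
    (hη : ∀ x, Measurable (fun ω => ⟪x, η ω⟫_ℂ))
    (ho : ∀ ω, Orthonormal ℂ (fun k : G => (L k : H →L[ℂ] H) (η (k⁻¹ • ω)))) :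
    ∃ U : CF (Ω := Ω) b L, (∀ ω k, ev b L ω U (b k) = (L k : H →L[ℂ] H) (η (k⁻¹ • ω))) ∧
      star U * U = 1 := by
  have hex := fun ω => exists_isom b _ (ho ω)
  choose X hX1 hX2 hX3 using hex
  let A : Dis Ω →ᵇ (H →L[ℂ] H) :=
    BoundedContinuousFunction.ofNormedAddCommGroupDiscrete (α := Dis Ω) X 1 hX1
  have hA : ∀ ω : Ω, (A : Dis Ω → (H →L[ℂ] H)) ω = X ω := fun ω => rfl
  have hLL : ∀ h k : G, ∀ x, (L h : H →L[ℂ] H) ((L k : H →L[ℂ] H) x)
      = (L (h * k) : H →L[ℂ] H) x := by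
    intro h k x
    have : (L h : H →L[ℂ] H) * (L k : H →L[ℂ] H) = (L (h * k) : H →L[ℂ] H) := by
      refine Pool.Agent.W253.RO.clm_ext b _ _ fun m => ?_
      show (L h : H →L[ℂ] H) ((L k : H →L[ℂ] H) (b m)) = _
      rw [hL, hL, hL, mul_assoc]
    exact congrArg (fun T : H →L[ℂ] H => T x) this
  have hmem : A ∈ CF (Ω := Ω) b L := by
    rw [mem_CF]
    refine ⟨?_, ?_⟩
    · intro x y
      have h1 : ∀ ω : Ω, ⟪x, (A : Dis Ω → (H →L[ℂ] H)) ω y⟫_ℂ =
          ∑' k : G, b.repr y k * ⟪x, (L k : H →L[ℂ] H) (η (k⁻¹ • ω))⟫_ℂ := by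
        intro ω
        rw [hA]
        have h2 := (b.hasSum_repr y).mapL (X ω)
        have h3 := h2.mapL (innerSL ℂ x)
        have h4 := h3.tsum_eq
        simp only [innerSL_apply_apply] at h4
        rw [← h4]
        refine tsum_congr fun k => ?_
        rw [map_smul, hX2, inner_smul_right]
      simp_rw [h1]
      refine Measurable.tsum fun k => ?_
      have h5 : (fun ω : Ω => ⟪x, (L k : H →L[ℂ] H) (η (k⁻¹ • ω))⟫_ℂ)
          = (fun ω => ⟪star (L k : H →L[ℂ] H) x, η ω⟫_ℂ) ∘ fun ω : Ω => k⁻¹ • ω := by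
        funext ω
        show _ = ⟪star (L k : H →L[ℂ] H) x, η (k⁻¹ • ω)⟫_ℂ
        rw [ContinuousLinearMap.star_eq_adjoint, ContinuousLinearMap.adjoint_inner_left]
      have h6 : Measurable (fun ω : Ω => ⟪x, (L k : H →L[ℂ] H) (η (k⁻¹ • ω))⟫_ℂ) := by
        rw [h5]
        exact (hη _).comp (hmeas k⁻¹)
      exact h6.const_mul _
    · intro h ω
      rw [hA, hA]
      refine Pool.Agent.W253.RO.clm_ext b _ _ fun k => ?_
      show X (h • ω) ((L h : H →L[ℂ] H) (b k)) = (L h : H →L[ℂ] H) (X ω (b k))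
      rw [hL h k, hX2, hX2, hLL, smul_smul]
      congr 3
      group
  refine ⟨⟨A, hmem⟩, fun ω k => hX2 ω k, ?_⟩
  refine ev_ext b L fun ω => ?_
  rw [map_mul, map_star, map_one]
  exact hX3 ω

/-- an isometric field is almost everywhere unitary -/
theorem ae_unitary (P : Measure Ω) [IsProbabilityMeasure P] (b : HilbertBasis G ℂ H)
    (L : G → unitary (H →L[ℂ] H)) (hL : Reg b L)
    (hmp : ∀ g : G, MeasurePreserving (fun ω : Ω => g • ω) P P) (U : CF (Ω := Ω) b L)
    (hU : star U * U = 1) : ∀ᵐ ω ∂P, ev b L ω (U * star U) = 1 := by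
  have hτ : TrSt (tau P b L) := t_TR G Ω H P b L hL hmp
  set Q : CF (Ω := Ω) b L := 1 - U * star U with hQ
  have hQQ : star Q * Q = Q := by
    have h1 : (U * star U) * (U * star U) = U * star U := by
      rw [mul_assoc, ← mul_assoc (star U), hU, one_mul]
    rw [hQ, star_sub, star_one, star_mul, star_star, sub_mul, one_mul, mul_sub, mul_one, h1,
      sub_self, sub_zero]
  have hτQ : tau P b L Q = 0 := by
    rw [hQ, map_sub, hτ.tr, hU, sub_self]
  have hN := Pool.Agent.W540.RO.t_N2 G Ω H P b L hL hmp Q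
  have hn2 : n2 (tau P b L) Q ^ 2 = 0 := by
    unfold n2
    rw [hQQ, hτQ]
    simp
  have hae : ∀ k : G, ∀ᵐ ω ∂P, ev b L ω Q (b k) = 0 := by
    intro k
    have h1 := (hN.2 k).2
    rw [hn2] at h1
    rw [integral_eq_zero_iff_of_nonneg (fun ω => sq_nonneg _) (hN.2 k).1] at h1
    filter_upwards [h1] with ω hω
    have h2 : ‖ev b L ω Q (b k)‖ ^ 2 = 0 := hω
    exact norm_eq_zero.1 (pow_eq_zero_iff (two_ne_zero) |>.1 h2)
  filter_upwards [ae_all_iff.2 hae] with ω hω
  have h3 : ev b L ω Q = 0 := Pool.Agent.W253.RO.clm_ext b _ _ fun k => by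
    rw [hω k]; rfl
  rw [hQ, map_sub, map_one, sub_eq_zero] at h3
  exact h3.symm

end
end Pool.Agent.TH315.LO
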