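import Pool.Agent.TH315.LO.Fac

/-!
# Jensen's inequality along a left order, for invertible fields
-/

set_option autoImplicit false
set_option linter.unusedSectionVars false
open scoped ComplexConjugate InnerProductSpace Topology BoundedContinuousFunction
open Filter MeasureTheory

namespace Pool.Agent.TH315.LO
open Pool.Agent.H712R5.BO Pool.Agent.W611.RO Pool.Agent.TH322.AC

section
variable {A : Type} [CStarAlgebra A]

/-- the exponential -/
noncomputable def Ex (h : A) : A := NormedSpace.exp h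

theorem Ex_add (h : A) (s t : ℝ) : Ex (s • h) * Ex (t • h) = Ex ((s + t) • h) := by
  let _ : NormedAlgebra ℚ A := NormedAlgebra.restrictScalars ℚ ℂ A
  unfold Ex
  rw [add_smul, NormedSpace.exp_add_of_commute]
  exact ((Commute.refl h).smul_left s).smul_right t

theorem Ex_zero (h : A) : Ex ((0 : ℝ) • h) = 1 := by
  let _ : NormedAlgebra ℚ A := NormedAlgebra.restrictScalars ℚ ℂ A
  unfold Ex
  rw [zero_smul, NormedSpace.exp_zero]

theorem Ex_star (h : A) (hh : star h = h) (s : ℝ) : star (Ex (s • h)) = Ex (s • h) := by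
  let _ : NormedAlgebra ℚ A := NormedAlgebra.restrictScalars ℚ ℂ A
  unfold Ex
  rw [NormedSpace.star_exp, star_smul, hh]
  simp

theorem Ex_conj {x u : A} (h1 : star u * u = 1) (h2 : u * star u = 1) :
    Ex (star u * x * u) = star u * Ex x * u := by
  let _ : NormedAlgebra ℚ A := NormedAlgebra.restrictScalars ℚ ℂ A
  unfold Ex
  exact NormedSpace.exp_units_conj' ⟨u, star u, h2, h1⟩ x

theorem tau_mono (τ : A →L[ℂ] ℂ) (hτ : TrSt τ) {x y : A}
    (h : ∃ c : A, y - x = star c * c) : (τ x).re ≤ (τ y).re := by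
  obtain ⟨c, hc⟩ := h
  have h1 := hτ.pos c
  rw [← hc, map_sub, Complex.sub_re] at h1
  linarith

theorem tau_Ex (τ : A →L[ℂ] ℂ) (hτ : TrSt τ) (h : A) (hh : star h = h) (hn : ‖h‖ ≤ 1) :
    (τ (Ex h)).re ≤ 1 + (τ h).re + ‖h‖ ^ 2 := by
  let := CStarAlgebra.spectralOrder A
  have := CStarAlgebra.spectralOrderedRing A
  have hsa : IsSelfAdjoint h := hh
  have h1 : Ex h ≤ 1 + h + h * h := by
    have e1 : Ex h = cfc Real.exp h := (CFC.real_exp_eq_normedSpace_exp hsa).symm
    have e2 : 1 + h + h * h = cfc (fun x : ℝ => 1 + x + x * x) h := by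
      rw [cfc_add h (fun x : ℝ => 1 + x) (fun x : ℝ => x * x), cfc_add h (fun _ : ℝ => (1:ℝ))
        (fun x : ℝ => x), cfc_mul (fun x : ℝ => x) (fun x : ℝ => x) h, cfc_const_one ℝ h,
        cfc_id' ℝ h]
    rw [e1, e2]
    refine cfc_mono ?_
    intro x hx
    have hx1 : |x| ≤ 1 := by
      have h3 := spectrum.norm_le_norm_mul_of_mem hx
      rw [Real.norm_eq_abs] at h3
      have h4 : ‖(1 : A)‖ ≤ 1 := by
        rcases subsingleton_or_nontrivial A with hs | hs
        · rw [Subsingleton.elim (1 : A) 0, norm_zero]; exact zero_le_one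
        · rw [CStarRing.norm_one]
      have h5 := norm_nonneg h
      nlinarith [norm_nonneg (1 : A)]
    have h4 := Real.abs_exp_sub_one_sub_id_le hx1
    have h5 := (abs_le.1 h4).2
    nlinarith
  have h2 : ∃ c : A, (1 + h + h * h) - Ex h = star c * c := by
    have h3 : 0 ≤ (1 + h + h * h) - Ex h := sub_nonneg.2 h1
    exact CStarAlgebra.nonneg_iff_eq_star_mul_self.1 h3
  have h3 := tau_mono τ hτ h2
  rw [map_add, map_add, hτ.one, Complex.add_re, Complex.add_re, Complex.one_re] at h3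
  have h4 : (τ (h * h)).re ≤ ‖h‖ ^ 2 := by
    have h5 := (Complex.re_le_norm _).trans (tau_le τ hτ (h * h))
    have h6 := norm_mul_le h h
    nlinarith
  linarith

end

section
variable {G Ω H : Type} [Group G] [Countable G] [MeasurableSpace Ω] [MulAction G Ω]
  [NormedAddCommGroup H] [InnerProductSpace ℂ H] [CompleteSpace H]

/-- equality almost everywhere -/
def AE (P : Measure Ω) (b : HilbertBasis G ℂ H) (L : G → unitary (H →L[ℂ] H))
    (X Y : CF (Ω := Ω) b L) : Prop := ∀ᵐ ω ∂P, ev b L ω X = ev b L ω Y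

variable {P : Measure Ω} {b : HilbertBasis G ℂ H} {L : G → unitary (H →L[ℂ] H)}

theorem AE.rfl' (X : CF (Ω := Ω) b L) : AE P b L X X := Eventually.of_forall fun _ => rfl

theorem AE.trans' {X Y Z : CF (Ω := Ω) b L} (h1 : AE P b L X Y) (h2 : AE P b L Y Z) :
    AE P b L X Z := by
  filter_upwards [h1, h2] with ω e1 e2
  rw [e1, e2]

theorem AE.mul' {X Y Z W : CF (Ω := Ω) b L} (h1 : AE P b L X Y) (h2 : AE P b L Z W) :
    AE P b L (X * Z) (Y * W) := by
  filter_upwards [h1, h2] with ω e1 e2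
  rw [map_mul, map_mul, e1, e2]

theorem AE.tau [IsProbabilityMeasure P] {X Y : CF (Ω := Ω) b L} (h : AE P b L X Y) :
    tau P b L X = tau P b L Y := by
  rw [tau_apply, tau_apply]
  refine integral_congr_ae ?_
  filter_upwards [h] with ω e
  rw [e]

theorem AE.Ph {X Y : CF (Ω := Ω) b L} (h : AE P b L X Y) :
    ∀ᵐ ω ∂P, Ph b L X ω = Ph b L Y ω := by
  filter_upwards [h] with ω e
  unfold LO.Ph
  rw [e]

theorem ev_Ex (x : CF (Ω := Ω) b L) (ω : Ω) : ev b L ω (Ex x) = Ex (ev b L ω x) := by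
  let _ : NormedAlgebra ℚ (CF (Ω := Ω) b L) := NormedAlgebra.restrictScalars ℚ ℂ _
  let _ : NormedAlgebra ℚ (H →L[ℂ] H) := NormedAlgebra.restrictScalars ℚ ℂ _
  unfold Ex
  refine NormedSpace.map_exp _ ?_ x
  have hle : ∀ A, ‖ev b L ω A‖ ≤ 1 * ‖A‖ := fun A => by
    rw [one_mul]; exact ev_norm b L ω A
  exact (LinearMap.mkContinuous (ev b L ω).toAlgHom.toLinearMap 1 hle).continuous

theorem Ph_one : ∀ ω, Ph b L (1 : CF (Ω := Ω) b L) ω = 1 := by
  intro ω
  unfold Ph
  have h1 : ev b L ω (1 : CF (Ω := Ω) b L) = 1 := map_one _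
  rw [h1]
  show ⟪b 1, b 1⟫_ℂ = 1
  rw [inner_self_eq_norm_sq_to_K, b.orthonormal.1 1]
  norm_num

variable [LinearOrder G] [MulLeftStrictMono G]

theorem Ph_inv (hL : Reg b L) {y z : CF (Ω := Ω) b L} (hy : NN b L y) (hz : NN b L z)
    (hyz : AE P b L (y * z) 1) : ∀ᵐ ω ∂P, Ph b L y ω * Ph b L z ω = 1 := by
  filter_upwards [hyz.Ph] with ω e
  rw [← Ph_mul b L hL hy hz, e, Ph_one]

theorem log_int [IsProbabilityMeasure P] (hL : Reg b L) {y z : CF (Ω := Ω) b L} (hy : NN b L y)
    (hz : NN b L z) (hyz : AE P b L (y * z) 1) :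
    Integrable (fun ω => Real.log ‖Ph b L y ω‖) P := by
  refine Integrable.of_bound (C := ‖y‖ + ‖z‖)
    (Real.measurable_log.comp (Ph_meas b L y).norm).aestronglyMeasurable ?_
  filter_upwards [Ph_inv hL hy hz hyz] with ω e
  have h1 : ‖Ph b L y ω‖ * ‖Ph b L z ω‖ = 1 := by rw [← norm_mul, e, norm_one]
  have h2 : ‖Ph b L y ω‖ ≠ 0 := fun h => by rw [h, zero_mul] at h1; exact zero_ne_one h1
  have h3 : 0 < ‖Ph b L y ω‖ := lt_of_le_of_ne (norm_nonneg _) (Ne.symm h2)
  have h4 : ‖Ph b L z ω‖ ≠ 0 := fun h => by rw [h, mul_zero] at h1; exact zero_ne_one h1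
  have h5 : 0 < ‖Ph b L z ω‖ := lt_of_le_of_ne (norm_nonneg _) (Ne.symm h4)
  have h6 : Real.log ‖Ph b L y ω‖ + Real.log ‖Ph b L z ω‖ = 0 := by
    rw [← Real.log_mul h2 h4, h1, Real.log_one]
  have h7 := Real.log_le_sub_one_of_pos h3
  have h8 := Real.log_le_sub_one_of_pos h5
  have h9 := Ph_le b L y ω
  have h10 := Ph_le b L z ω
  rw [Real.norm_eq_abs, abs_le]
  constructor <;> linarith [norm_nonneg y, norm_nonneg z]

theorem base [IsProbabilityMeasure P] (hL : Reg b L)
    (hmp : ∀ g : G, MeasurePreserving (fun ω : Ω => g • ω) P P)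
    (y z h : CF (Ω := Ω) b L) (hy : NN b L y) (hz : NN b L z) (hyz : AE P b L (y * z) 1)
    (hh : star h = h) (hyy : AE P b L (y * star y) (Ex h)) (hn : ‖h‖ ≤ 1) :
    2 * ∫ ω, Real.log ‖Ph b L y ω‖ ∂P ≤ (tau P b L h).re + ‖h‖ ^ 2 := by
  have hτ : TrSt (tau P b L) := t_TR G Ω H P b L hL hmp
  have hi : Integrable (fun ω => (⟪b 1, ev b L ω (y * star y) (b 1)⟫_ℂ).re) P :=
    (ev_int P b L (y * star y) _ _).re
  have h1 : 2 * ∫ ω, Real.log ‖Ph b L y ω‖ ∂P
      ≤ ∫ ω, ((⟪b 1, ev b L ω (y * star y) (b 1)⟫_ℂ).re - 1) ∂P := by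
    rw [← integral_const_mul]
    refine integral_mono_ae ((log_int hL hy hz hyz).const_mul 2) (hi.sub (integrable_const _)) ?_
    filter_upwards [Ph_inv hL hy hz hyz] with ω e
    have h1 : ‖Ph b L y ω‖ * ‖Ph b L z ω‖ = 1 := by rw [← norm_mul, e, norm_one]
    have h2 : ‖Ph b L y ω‖ ≠ 0 := fun h => by rw [h, zero_mul] at h1; exact zero_ne_one h1
    have h3 : 0 < ‖Ph b L y ω‖ ^ 2 := by positivity
    have h4 := Real.log_le_sub_one_of_pos h3
    rw [Real.log_pow] at h4
    push_cast at h4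
    have h5 : ‖Ph b L y ω‖ ^ 2 ≤ (⟪b 1, ev b L ω (y * star y) (b 1)⟫_ℂ).re := by
      have e1 : Ph b L y ω = ⟪star (ev b L ω y) (b 1), b 1⟫_ℂ := by
        unfold Ph
        rw [ContinuousLinearMap.star_eq_adjoint, ContinuousLinearMap.adjoint_inner_left]
      have e2 : ‖Ph b L y ω‖ ≤ ‖star (ev b L ω y) (b 1)‖ := by
        rw [e1]
        refine (norm_inner_le_norm _ _).trans ?_
        rw [b.orthonormal.1 1, mul_one]
      have e3 : (⟪b 1, ev b L ω (y * star y) (b 1)⟫_ℂ).re = ‖star (ev b L ω y) (b 1)‖ ^ 2 := by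
        rw [map_mul, map_star]
        show (⟪b 1, ev b L ω y (star (ev b L ω y) (b 1))⟫_ℂ).re = _
        have e4 : ⟪b 1, ev b L ω y (star (ev b L ω y) (b 1))⟫_ℂ
            = ⟪star (ev b L ω y) (b 1), star (ev b L ω y) (b 1)⟫_ℂ := by
          conv_rhs => rw [ContinuousLinearMap.star_eq_adjoint,
            ContinuousLinearMap.adjoint_inner_left]
          rw [ContinuousLinearMap.star_eq_adjoint]
        rw [e4]
        exact inner_self_eq_norm_sq (𝕜 := ℂ) _
      rw [e3]
      exact pow_le_pow_left₀ (norm_nonneg _) e2 2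
    linarith
  have h2 : ∫ ω, ((⟪b 1, ev b L ω (y * star y) (b 1)⟫_ℂ).re - 1) ∂P
      = (tau P b L (Ex h)).re - 1 := by
    rw [integral_sub hi (integrable_const _), integral_const]
    have e1 : ∫ ω, (⟪b 1, ev b L ω (y * star y) (b 1)⟫_ℂ).re ∂P
        = (tau P b L (y * star y)).re := by
      rw [tau_apply]
      exact integral_re (ev_int P b L (y * star y) (b 1) (b 1))
    rw [e1, hyy.tau]
    simp
  have h3 := tau_Ex (tau P b L) hτ h hh hn
  linarith

theorem claim [IsProbabilityMeasure P] (hL : Reg b L)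
    (hmp : ∀ g : G, MeasurePreserving (fun ω : Ω => g • ω) P P) (k : ℕ) :
    ∀ y z h : CF (Ω := Ω) b L, NN b L y → NN b L z → AE P b L (y * z) 1 → AE P b L (z * y) 1 →
      star h = h → AE P b L (y * star y) (Ex h) → ‖h‖ ≤ 2 ^ k →
      2 * ∫ ω, Real.log ‖Ph b L y ω‖ ∂P ≤ (tau P b L h).re + ‖h‖ ^ 2 / 2 ^ k := by
  have hτ : TrSt (tau P b L) := t_TR G Ω H P b L hL hmp
  induction k with
  | zero =>
    intro y z h hy hz hyz _ hh hyy hn
    rw [pow_zero] at hn ⊢
    rw [div_one]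
    exact base hL hmp y z h hy hz hyz hh hyy hn
  | succ k ih =>
    intro y z h hy hz hyz hzy hh hyy hn
    set R : CF (Ω := Ω) b L := Ex ((-(1/4) : ℝ) • h) with hR
    set R' : CF (Ω := Ω) b L := Ex ((1/4 : ℝ) • h) with hR'
    have hRs : star R = R := Ex_star h hh _
    have hR's : star R' = R' := Ex_star h hh _
    have e1 : R * R' = 1 := by
      rw [hR, hR', Ex_add, neg_add_cancel, Ex_zero]
    have e2 : R' * R = 1 := by
      rw [hR, hR', Ex_add, add_neg_cancel, Ex_zero]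
    obtain ⟨U, hU, hv, hu⟩ := fac b L hL (fun g => (hmp g).measurable) R R' hRs hR's e1 e2
    have hUU : AE P b L (U * star U) 1 := by
      have := ae_unitary P b L hL hmp U hU
      filter_upwards [this] with ω e
      rw [e, map_one]
    set v : CF (Ω := Ω) b L := R' * U with hvdef
    set u : CF (Ω := Ω) b L := star U * R with hudef
    have huv : u * v = 1 := by
      rw [hudef, hvdef, mul_assoc, ← mul_assoc R, e1, one_mul, hU]
    have hvu : AE P b L (v * u) 1 := by
      have h3 : v * u = R' * (U * star U) * R := by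
        rw [hudef, hvdef]; simp only [mul_assoc]
      rw [h3]
      have h4 := ((AE.rfl' (P := P) R').mul' hUU).mul' (AE.rfl' R)
      rwa [mul_one, e2] at h4
    have hvv : AE P b L (v * star v) (Ex ((1/2 : ℝ) • h)) := by
      have h3 : v * star v = R' * (U * star U) * R' := by
        rw [hvdef, star_mul, hR's]; simp only [mul_assoc]
      rw [h3]
      have h4 := ((AE.rfl' (P := P) R').mul' hUU).mul' (AE.rfl' R')
      rw [mul_one] at h4
      have h5 : R' * R' = Ex ((1/2 : ℝ) • h) := by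
        rw [hR', Ex_add]
        norm_num
      rwa [h5] at h4
    have hh2 : star ((1/2 : ℝ) • h) = (1/2 : ℝ) • h := by
      rw [star_smul, hh]; simp
    have hn2 : ‖(1/2 : ℝ) • h‖ = ‖h‖ / 2 := by
      rw [norm_smul]
      norm_num
      ring
    have hn2' : ‖(1/2 : ℝ) • h‖ ≤ 2 ^ k := by
      rw [hn2]
      rw [pow_succ] at hn
      linarith
    have c1 := ih v u ((1/2 : ℝ) • h) hv hu hvu (by rw [huv]; exact AE.rfl' (1 : CF (Ω := Ω) b L)) hh2 hvv hn2'
    -- the second factor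
    set h2 : CF (Ω := Ω) b L := star U * ((1/2 : ℝ) • h) * U with hh2def
    have hh2s : star h2 = h2 := by
      rw [hh2def, star_mul, star_mul, star_star, hh2, mul_assoc]
    have hUn : ‖U‖ ≤ 1 := by
      have h3 := CStarRing.norm_star_mul_self (x := U)
      rw [hU] at h3
      have h4 : ‖(1 : CF (Ω := Ω) b L)‖ ≤ 1 := by
        rcases subsingleton_or_nontrivial (CF (Ω := Ω) b L) with hs | hs
        · rw [Subsingleton.elim (1 : CF (Ω := Ω) b L) 0, norm_zero]; exact zero_le_one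
        · rw [CStarRing.norm_one]
      nlinarith [norm_nonneg U]
    have hh2n : ‖h2‖ ≤ ‖h‖ / 2 := by
      rw [← hn2]
      calc ‖h2‖ ≤ ‖star U‖ * ‖(1/2 : ℝ) • h‖ * ‖U‖ :=
            (norm_mul_le _ _).trans (mul_le_mul_of_nonneg_right (norm_mul_le _ _) (norm_nonneg _))
        _ ≤ 1 * ‖(1/2 : ℝ) • h‖ * 1 := by
            rw [norm_star]
            gcongr
        _ = _ := by ring
    have hh2n' : ‖h2‖ ≤ 2 ^ k := hh2n.trans (hn2 ▸ hn2')
    have hyy2 : AE P b L ((u * y) * star (u * y)) (Ex h2) := by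
      have h3 : (u * y) * star (u * y) = star U * R * (y * star y) * (R * U) := by
        rw [star_mul, hudef, star_mul, star_star, hRs]; simp only [mul_assoc]
      have h4 : AE P b L ((u * y) * star (u * y)) (star U * R * Ex h * (R * U)) := by
        rw [h3]
        exact ((AE.rfl' (P := P) _).mul' hyy).mul' (AE.rfl' _)
      have h5 : star U * R * Ex h * (R * U) = star U * Ex ((1/2 : ℝ) • h) * U := by
        have h6 : R * Ex h * R = Ex ((1/2 : ℝ) • h) := by
          have h7 : Ex h = Ex ((1 : ℝ) • h) := by rw [one_smul]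
          rw [h7, hR, Ex_add, Ex_add]
          norm_num
        rw [← h6]; simp only [mul_assoc]
      rw [h5] at h4
      refine h4.trans' ?_
      filter_upwards [hUU] with ω e
      rw [map_mul, map_mul, ev_Ex, ev_Ex, hh2def, map_mul, map_mul, map_star, Ex_conj]
      · have := congrArg (ev b L ω) hU
        rwa [map_mul, map_star, map_one] at this
      · rwa [map_mul, map_star, map_one] at e
    have hyz2 : AE P b L ((u * y) * (z * v)) 1 := by
      have h3 : (u * y) * (z * v) = u * (y * z) * v := by simp only [mul_assoc]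
      rw [h3]
      have h4 := ((AE.rfl' (P := P) u).mul' hyz).mul' (AE.rfl' v)
      rwa [mul_one, huv] at h4
    have hzy2 : AE P b L ((z * v) * (u * y)) 1 := by
      have h3 : (z * v) * (u * y) = z * (v * u) * y := by simp only [mul_assoc]
      rw [h3]
      have h4 := ((AE.rfl' (P := P) z).mul' hvu).mul' (AE.rfl' y)
      rw [mul_one] at h4
      exact h4.trans' hzy
    have hNu : NN b L (u * y) := NN_mul b L hL hu hy
    have hNz : NN b L (z * v) := NN_mul b L hL hz hv
    have c2 := ih (u * y) (z * v) h2 hNu hNz hyz2 hzy2 hh2s hyy2 hh2n'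
    have hτ2 : tau P b L h2 = tau P b L ((1/2 : ℝ) • h) := by
      rw [hh2def, mul_assoc, hτ.tr, mul_assoc]
      have h3 := (AE.rfl' (P := P) ((1/2 : ℝ) • h)).mul' hUU
      rw [h3.tau, mul_one]
    have hlog : ∫ ω, Real.log ‖Ph b L y ω‖ ∂P
        = ∫ ω, Real.log ‖Ph b L v ω‖ ∂P + ∫ ω, Real.log ‖Ph b L (u * y) ω‖ ∂P := by
      rw [← integral_add (log_int hL hv hu hvu) (log_int hL hNu hNz hyz2)]
      refine integral_congr_ae ?_
      have h3 : AE P b L y (v * (u * y)) := by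
        have h4 := hvu.mul' (AE.rfl' (P := P) y)
        rw [one_mul, mul_assoc] at h4
        filter_upwards [h4] with ω e
        exact e.symm
      filter_upwards [h3.Ph, Ph_inv hL hv hu hvu, Ph_inv hL hNu hNz hyz2] with ω e3 e4 e5
      rw [e3, Ph_mul b L hL hv hNu, norm_mul, Real.log_mul]
      · intro h
        rw [norm_eq_zero.1 h, zero_mul] at e4
        exact zero_ne_one e4
      · intro h
        rw [norm_eq_zero.1 h, zero_mul] at e5
        exact zero_ne_one e5
    have hτh : (tau P b L ((1/2 : ℝ) • h)).re = (tau P b L h).re / 2 := by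
      have h3 : ((1/2 : ℝ) • h) = (((1/2 : ℝ) : ℂ)) • h := (Complex.coe_smul _ _).symm
      rw [h3, map_smul, smul_eq_mul, Complex.re_ofReal_mul]
      ring
    rw [hτ2] at c2
    rw [hlog]
    have hp : (0 : ℝ) < 2 ^ k := by positivity
    have h5 : ‖(1/2 : ℝ) • h‖ ^ 2 / 2 ^ k = ‖h‖ ^ 2 / 2 ^ (k + 1) / 2 := by
      rw [hn2]
      field_simp
      ring
    have h6 : ‖h2‖ ^ 2 / 2 ^ k ≤ ‖h‖ ^ 2 / 2 ^ (k + 1) / 2 := by
      rw [← h5, hn2]
      gcongr
    rw [h5] at c1
    linarith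

/-- Jensen's inequality for invertible fields -/
theorem jen_inv [IsProbabilityMeasure P] (hL : Reg b L)
    (hmp : ∀ g : G, MeasurePreserving (fun ω : Ω => g • ω) P P)
    (y z h : CF (Ω := Ω) b L) (hy : NN b L y) (hz : NN b L z) (hyz : AE P b L (y * z) 1)
    (hzy : AE P b L (z * y) 1) (hh : star h = h) (hyy : AE P b L (y * star y) (Ex h)) :
    2 * ∫ ω, Real.log ‖Ph b L y ω‖ ∂P ≤ (tau P b L h).re := by
  have hlim : Tendsto (fun k : ℕ => (tau P b L h).re + ‖h‖ ^ 2 / (2 : ℝ) ^ k) atTop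
      (𝓝 ((tau P b L h).re + 0)) := by
    refine tendsto_const_nhds.add ?_
    exact tendsto_const_nhds.div_atTop (tendsto_pow_atTop_atTop_of_one_lt one_lt_two)
  rw [add_zero] at hlim
  refine ge_of_tendsto hlim ?_
  have h1 : ∀ᶠ k : ℕ in atTop, ‖h‖ ≤ (2 : ℝ) ^ k :=
    (tendsto_pow_atTop_atTop_of_one_lt (one_lt_two : (1 : ℝ) < 2)).eventually_ge_atTop ‖h‖
  filter_upwards [h1] with k hk
  exact claim hL hmp k y z h hy hz hyz hzy hh hyy hk

end
end Pool.Agent.TH315.LO
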