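import Pool.Agent.TH315.LO.Jen
import Pool.Agent.W515.RO.Uni
import Pool.Agent.W721.RO.WRD

/-!
# Jensen's inequality along a left order: the determinant is at least the leading coefficient
-/

set_option autoImplicit false
set_option linter.unusedSectionVars false
open scoped ComplexConjugate InnerProductSpace Topology BoundedContinuousFunction
open Filter MeasureTheory

namespace Pool.Agent.TH315.LO
open Pool.Agent.H712R5.BO Pool.Agent.W611.RO Pool.Agent.TH322.AC

section
variable {A : Type} [CStarAlgebra A]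

theorem log_Ex (h : A) (hh : star h = h) : CFC.log (Ex h) = h := by
  let _ : NormedAlgebra ℚ A := NormedAlgebra.restrictScalars ℚ ℂ A
  exact CFC.log_exp h hh

/-- `δ + X* X` is the exponential of a selfadjoint element -/
theorem Ex_log (X : A) {δ : ℝ} (hδ : 0 < δ) :
    Ex (CFC.log (algebraMap ℝ A δ + star X * X)) = algebraMap ℝ A δ + star X * X ∧
      star (CFC.log (algebraMap ℝ A δ + star X * X))
        = CFC.log (algebraMap ℝ A δ + star X * X) := by
  let := CStarAlgebra.spectralOrder A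
  have := CStarAlgebra.spectralOrderedRing A
  let _ : NormedAlgebra ℚ A := NormedAlgebra.restrictScalars ℚ ℂ A
  have hpos : IsStrictlyPositive (algebraMap ℝ A δ + star X * X) :=
    IsStrictlyPositive.add_nonneg (isStrictlyPositive_algebraMap hδ) (star_mul_self_nonneg _)
  refine ⟨CFC.exp_log _ hpos, ?_⟩
  exact IsSelfAdjoint.log

end

section
variable {G Ω H : Type} [Group G] [Countable G] [MeasurableSpace Ω] [MulAction G Ω]
  [NormedAddCommGroup H] [InnerProductSpace ℂ H] [CompleteSpace H]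
  {P : Measure Ω} {b : HilbertBasis G ℂ H} {L : G → unitary (H →L[ℂ] H)}
  [LinearOrder G] [MulLeftStrictMono G]

/-- Jensen's inequality for fields supported in the cone -/
theorem jen [IsProbabilityMeasure P] (hL : Reg b L)
    (hmp : ∀ g : G, MeasurePreserving (fun ω : Ω => g • ω) P P)
    (Y : CF (Ω := Ω) b L) (hY : NN b L Y) (h0 : ∀ᵐ ω ∂P, Ph b L Y ω ≠ 0)
    (hi : Integrable (fun ω => Real.log ‖Ph b L Y ω‖) P) {δ : ℝ} (hδ : 0 < δ) :
    2 * ∫ ω, Real.log ‖Ph b L Y ω‖ ∂P ≤
      (tau P b L (CFC.log (algebraMap ℝ (CF (Ω := Ω) b L) δ + star Y * Y))).re := by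
  have hτ : TrSt (tau P b L) := t_TR G Ω H P b L hL hmp
  obtain ⟨hA1, hA2⟩ := Ex_log Y hδ
  set h : CF (Ω := Ω) b L := CFC.log (algebraMap ℝ (CF (Ω := Ω) b L) δ + star Y * Y) with hh
  set R : CF (Ω := Ω) b L := Ex ((1/2 : ℝ) • h) with hR
  set R' : CF (Ω := Ω) b L := Ex ((-(1/2) : ℝ) • h) with hR'
  have hRs : star R = R := Ex_star h hA2 _
  have hR's : star R' = R' := Ex_star h hA2 _
  have e1 : R * R' = 1 := by
    rw [hR, hR', Ex_add, add_neg_cancel, Ex_zero]
  have e2 : R' * R = 1 := by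
    rw [hR, hR', Ex_add, neg_add_cancel, Ex_zero]
  have hRR : R * R = Ex h := by
    rw [hR, Ex_add]
    norm_num
  obtain ⟨U, hU, hv, hu⟩ := fac b L hL (fun g => (hmp g).measurable) R R' hRs hR's e1 e2
  have hUU : AE P b L (U * star U) 1 := by
    have := ae_unitary P b L hL hmp U hU
    filter_upwards [this] with ω e
    rw [e, map_one]
  set z : CF (Ω := Ω) b L := R' * U with hzdef
  set y : CF (Ω := Ω) b L := star U * R with hydef
  have hyz : y * z = 1 := by
    rw [hydef, hzdef, mul_assoc, ← mul_assoc R, e1, one_mul, hU]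
  have hzy : AE P b L (z * y) 1 := by
    have h3 : z * y = R' * (U * star U) * R := by
      rw [hydef, hzdef]; simp only [mul_assoc]
    rw [h3]
    have h4 := ((AE.rfl' (P := P) R').mul' hUU).mul' (AE.rfl' R)
    rwa [mul_one, e2] at h4
  have hyz' : AE P b L (y * z) 1 := by rw [hyz]; exact AE.rfl' (1 : CF (Ω := Ω) b L)
  have h1n : ‖(1 : CF (Ω := Ω) b L)‖ ≤ 1 := by
    rcases subsingleton_or_nontrivial (CF (Ω := Ω) b L) with hs | hs
    · rw [Subsingleton.elim (1 : CF (Ω := Ω) b L) 0, norm_zero]; exact zero_le_one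
    · rw [CStarRing.norm_one]
  have hUn : ‖U‖ ≤ 1 := by
    have h3 := CStarRing.norm_star_mul_self (x := U)
    rw [hU] at h3
    nlinarith [norm_nonneg U]
  -- the contraction
  have hYR : ‖Y * R'‖ ≤ 1 := by
    let := CStarAlgebra.spectralOrder (CF (Ω := Ω) b L)
    have := CStarAlgebra.spectralOrderedRing (CF (Ω := Ω) b L)
    have h3 : star (Y * R') * (Y * R') ≤ 1 := by
      have h4 : star Y * Y ≤ algebraMap ℝ (CF (Ω := Ω) b L) δ + star Y * Y := by
        have : (0 : CF (Ω := Ω) b L) ≤ algebraMap ℝ (CF (Ω := Ω) b L) δ := by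
          have := algebraMap_mono (CF (Ω := Ω) b L) hδ.le
          rwa [map_zero] at this
        exact le_add_of_nonneg_left this
      rw [← hA1] at h4
      have h5 := star_left_conjugate_le_conjugate h4 R'
      rw [hR's] at h5
      have h6 : R' * Ex h * R' = 1 := by
        rw [← hRR, ← mul_assoc, e2, one_mul, e1]
      rw [h6] at h5
      have h7 : star (Y * R') * (Y * R') = R' * (star Y * Y) * R' := by
        rw [star_mul, hR's]; simp only [mul_assoc]
      rw [h7]
      exact h5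
    have h8 := CStarAlgebra.norm_le_norm_of_nonneg_of_le (star_mul_self_nonneg (Y * R')) h3
    rw [CStarRing.norm_star_mul_self] at h8
    nlinarith [norm_nonneg (Y * R')]
  have hwn : ‖Y * z‖ ≤ 1 := by
    rw [hzdef, ← mul_assoc]
    refine (norm_mul_le _ _).trans ?_
    nlinarith [norm_nonneg (Y * R'), norm_nonneg U]
  -- comparison of the diagonal coefficients
  have hcmp : ∫ ω, Real.log ‖Ph b L Y ω‖ ∂P ≤ ∫ ω, Real.log ‖Ph b L y ω‖ ∂P := by
    refine integral_mono_ae hi (log_int hL hu hv hyz') ?_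
    filter_upwards [h0, Ph_inv hL hu hv hyz'] with ω e3 e4
    refine Real.log_le_log (norm_pos_iff.2 e3) ?_
    have h3 : ‖Ph b L Y ω‖ * ‖Ph b L z ω‖ ≤ 1 := by
      rw [← norm_mul, ← Ph_mul b L hL hY hv]
      exact (Ph_le b L _ ω).trans hwn
    have h4 : ‖Ph b L y ω‖ * ‖Ph b L z ω‖ = 1 := by rw [← norm_mul, e4, norm_one]
    have h5 : 0 < ‖Ph b L z ω‖ := by
      refine lt_of_le_of_ne (norm_nonneg _) fun h => ?_
      rw [← h, mul_zero] at h4
      exact zero_ne_one h4
    by_contra hc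
    rw [not_le] at hc
    have := mul_lt_mul_of_pos_right hc h5
    linarith
  set h' : CF (Ω := Ω) b L := star U * h * U with hh'
  have hh's : star h' = h' := by
    rw [hh', star_mul, star_mul, star_star, hA2, mul_assoc]
  have hyy : AE P b L (y * star y) (Ex h') := by
    have h3 : y * star y = star U * Ex h * U := by
      rw [← hRR, hydef, star_mul, star_star, hRs]; simp only [mul_assoc]
    rw [h3]
    filter_upwards [hUU] with ω e
    rw [map_mul, map_mul, ev_Ex, ev_Ex, hh', map_mul, map_mul, map_star, Ex_conj]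
    · have := congrArg (ev b L ω) hU
      rwa [map_mul, map_star, map_one] at this
    · rwa [map_mul, map_star, map_one] at e
  have hJ := jen_inv hL hmp y z h' hu hv hyz' hzy hh's hyy
  have hτh : tau P b L h' = tau P b L h := by
    rw [hh', mul_assoc, hτ.tr, mul_assoc]
    have h3 := (AE.rfl' (P := P) h).mul' hUU
    rw [h3.tau, mul_one]
  rw [hτh] at hJ
  linarith

/-- `f` is the leading coefficient of `Y`, at `m` -/
def Ld (b : HilbertBasis G ℂ H) (L : G → unitary (H →L[ℂ] H)) (Y : CF (Ω := Ω) b L) (m : G)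
    (f : Ω → ℂ) : Prop :=
  ∀ ω : Ω, ev b L ω Y (b 1) ∈ Kg b (Set.Ici m) ∧ ⟪b m, ev b L ω Y (b 1)⟫_ℂ = f ω

/-- the determinant is at least the leading coefficient -/
theorem jen_lead [IsProbabilityMeasure P] (hL : Reg b L)
    (hmp : ∀ g : G, MeasurePreserving (fun ω : Ω => g • ω) P P)
    (Y : CF (Ω := Ω) b L) (m : G) (f : Ω → ℂ) (hY : Ld b L Y m f) (h0 : ∀ᵐ ω ∂P, f ω ≠ 0)
    (hi : Integrable (fun ω => Real.log ‖f ω‖) P) {δ : ℝ} (hδ : 0 < δ) :
    2 * ∫ ω, Real.log ‖f ω‖ ∂P ≤
      (tau P b L (CFC.log (algebraMap ℝ (CF (Ω := Ω) b L) δ + star Y * Y))).re := by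
  have hτ : TrSt (tau P b L) := t_TR G Ω H P b L hL hmp
  have hUNI : P_UNI := Pool.Agent.W515.RO.t_UNI
  obtain ⟨V, hV⟩ := Pool.Agent.W721.RO.t_WRD hUNI G Ω H b L hL (fun h => (hmp h).measurable) m
    (fun _ => 1) 1 measurable_const (fun _ => by rw [norm_one])
  obtain ⟨W, hW⟩ := (hUNI G H b (Equiv.mulRight m⁻¹) (fun _ => 1)).1 (by simp)
  have hVW : ∀ ω, ev b L ω V = (W : H →L[ℂ] H) := by
    intro ω
    refine Pool.Agent.W253.RO.clm_ext b _ _ fun k => ?_
    rw [hV ω k, hW k]
    rfl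
  have hV1 : star V * V = 1 := ev_ext b L fun ω => by
    rw [map_mul, map_star, map_one, hVW]
    exact (Unitary.mem_iff.mp W.2).1
  have hV2 : V * star V = 1 := ev_ext b L fun ω => by
    rw [map_mul, map_star, map_one, hVW]
    exact (Unitary.mem_iff.mp W.2).2
  have hYV : ∀ ω, ev b L ω (Y * V) (b 1)
      = (L m⁻¹ : H →L[ℂ] H) (ev b L (m • ω) Y (b 1)) := by
    intro ω
    rw [map_mul]
    show ev b L ω Y (ev b L ω V (b 1)) = _
    rw [hV ω 1, one_smul, one_mul, ev_b b L hL, inv_inv]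
  have hNN : NN b L (Y * V) := by
    intro ω g hg
    rw [Set.mem_Ici, not_le] at hg
    rw [hYV, inner_L b L hL, inv_inv]
    refine (hY (m • ω)).1 _ ?_
    rw [Set.mem_Ici, not_le]
    have := mul_lt_mul_right hg m
    simpa using this
  have hPh : ∀ ω, Ph b L (Y * V) ω = f (m • ω) := by
    intro ω
    unfold Ph
    rw [hYV, inner_L b L hL, inv_inv, mul_one]
    exact (hY (m • ω)).2
  have hPh' : Ph b L (Y * V) = fun ω => f (m • ω) := funext hPh
  have hJ := jen hL hmp (Y * V) hNN (by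
      rw [hPh']
      exact (hmp m).quasiMeasurePreserving.ae h0) (by
      rw [hPh']
      exact (hmp m).integrable_comp_of_integrable hi) hδ
  rw [hPh'] at hJ
  have hint : ∫ ω, Real.log ‖f (m • ω)‖ ∂P = ∫ ω, Real.log ‖f ω‖ ∂P := by
    have h1 := integral_map (μ := P) (φ := fun ω : Ω => m • ω) (hmp m).measurable.aemeasurable
      (f := fun ω => Real.log ‖f ω‖) (by rw [(hmp m).map_eq]; exact hi.aestronglyMeasurable)
    rw [(hmp m).map_eq] at h1
    exact h1.symm
  rw [hint] at hJ
  refine hJ.trans (le_of_eq ?_)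
  -- invariance of the determinant
  obtain ⟨hA1, hA2⟩ := Ex_log Y hδ
  set h : CF (Ω := Ω) b L := CFC.log (algebraMap ℝ (CF (Ω := Ω) b L) δ + star Y * Y) with hh
  have h3 : algebraMap ℝ (CF (Ω := Ω) b L) δ + star (Y * V) * (Y * V) = Ex (star V * h * V) := by
    rw [Ex_conj hV1 hV2, hA1, mul_add, add_mul, star_mul]
    congr 1
    rw [← Algebra.commutes, mul_assoc, hV1, mul_one]
  rw [h3, log_Ex, mul_assoc, hτ.tr, mul_assoc, hV2, mul_one]
  rw [star_mul, star_mul, star_star, hA2, mul_assoc]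

end
end Pool.Agent.TH315.LO
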